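import Pool.Agent.Lib.MP_0a1b52_lc_SG.Defs2

/-!
# Project SG, module Act: the action on vertices and graphs
-/

namespace Pool.Agent.SymGap

variable {j m n : ℕ} (β : Fin j × Fin m ↪ Fin n)

/-- `Equiv.Perm.viaEmbedding_apply`. -/
theorem perm_block (σ : Fin j → alternatingGroup (Fin m)) (i : Fin j) (a : Fin m) :
    perm β σ (β (i, a)) = β (i, (σ i : Equiv.Perm (Fin m)) a) := by
  unfold perm
  rw [Equiv.Perm.viaEmbedding_apply]
  rfl

/-- `Equiv.Perm.viaEmbedding_apply_of_notMem`. -/
theorem perm_out (σ : Fin j → alternatingGroup (Fin m)) (x : Fin n)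
    (hx : x ∉ Set.range β) : perm β σ x = x := by
  unfold perm
  exact Equiv.Perm.viaEmbedding_apply_of_notMem _ _ _ hx

/-- `ext x`; case distinction `x ∈ Set.range β`; use `perm_block`, `perm_out`. -/
theorem perm_mul (σ τ : Fin j → alternatingGroup (Fin m)) :
    perm β (σ * τ) = perm β σ * perm β τ := by
  ext x
  rw [Equiv.Perm.mul_apply]
  by_cases hx : x ∈ Set.range β
  · obtain ⟨⟨i, a⟩, rfl⟩ := hx
    rw [perm_block, perm_block, perm_block]
    rfl
  · rw [perm_out β _ _ hx, perm_out β _ _ hx, perm_out β _ _ hx]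

theorem perm_one : perm β (1 : Fin j → alternatingGroup (Fin m)) = 1 := by
  ext x
  by_cases hx : x ∈ Set.range β
  · obtain ⟨⟨i, a⟩, rfl⟩ := hx
    rw [perm_block]
    rfl
  · rw [perm_out β _ _ hx]
    rfl

/-- From `perm_mul` and `perm_one`. -/
theorem perm_inv (σ : Fin j → alternatingGroup (Fin m)) :
    perm β σ⁻¹ = (perm β σ)⁻¹ := by
  rw [eq_inv_iff_mul_eq_one, ← perm_mul, inv_mul_cancel, perm_one]

theorem act_adj (σ : Fin j → alternatingGroup (Fin m)) (G : SimpleGraph (Fin n)) (x y : Fin n) :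
    (act β σ G).Adj x y ↔ G.Adj ((perm β σ)⁻¹ x) ((perm β σ)⁻¹ y) := by
  rfl

theorem act_one (G : SimpleGraph (Fin n)) : act β 1 G = G := by
  ext x y
  rw [act_adj, perm_one, inv_one]
  rfl

theorem act_mul (σ τ : Fin j → alternatingGroup (Fin m)) (G : SimpleGraph (Fin n)) :
    act β (σ * τ) G = act β σ (act β τ G) := by
  ext x y
  rw [act_adj, act_adj, act_adj, perm_mul, mul_inv_rev]
  rfl

/-- The inverse permutation preserves the block `i`. -/
theorem perm_inv_block (σ : Fin j → alternatingGroup (Fin m)) (i : Fin j) (a : Fin m) :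
    (perm β σ)⁻¹ (β (i, a)) = β (i, (σ i : Equiv.Perm (Fin m))⁻¹ a) := by
  rw [← perm_inv, perm_block]
  rfl

/-- If the inverse permutation sends `x` into the block `i`, then `x` is in the block `i`. -/
theorem mem_block_of_perm_inv (σ : Fin j → alternatingGroup (Fin m)) (x : Fin n) (i : Fin j)
    (a : Fin m) (h : (perm β σ)⁻¹ x = β (i, a)) : ∃ a', x = β (i, a') := by
  refine ⟨(σ i : Equiv.Perm (Fin m)) a, ?_⟩
  rw [← perm_block, ← h]
  exact ((perm β σ).apply_symm_apply x).symm

end Pool.Agent.SymGap
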