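import Pool.Agent.Lib.MP_0a1b52_lc_SG.Core

/-!
# Project SG, module AllGates: induction over the gates
-/

namespace Pool.Agent.SymGap

variable {ι A Κ V : Type} [Group A] {n s t ℓ : ℕ}

theorem isEval_gateFun (D : Circuit n s t ℓ) (G : SimpleGraph (Fin n)) :
    D.IsEval G fun i => D.gateFun i G :=
  (D.exists_eval G).choose_spec

/-- All gates satisfy the claim. -/
theorem all_claims [Fintype ι] [DecidableEq ι] [Fintype A]
    (S : Sys ι A (SimpleGraph (Fin n)) Κ ℓ)
    (D : Circuit n s t ℓ) {k : ℕ} (h1 : k + 2 ≤ S.k') (_h2 : 2 * k ≤ S.k')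
    (h3 : (t + 1) * k ≤ S.k')
    (hinv : ∀ i, ∃ B : Finset ι, B.card ≤ k ∧ Inv S.a (D.gateFun i) B)
    (hedge : ∀ a b : Fin n, ∃ B0 : Finset ι, B0.card ≤ 2 ∧ ∀ σ, ∀ κ ∈ S.K B0,
      ((S.a σ S.z0).Adj a b ↔ (S.a σ (S.z κ)).Adj a b)) :
    ∀ i, S.Claim k (D.gateFun i) := by
  classical
  have hval : ∀ i G, D.gateFun i G = (D.gate i).value ℓ G (fun k => D.gateFun k G) :=
    fun i G => isEval_gateFun D G i
  intro i
  induction i using WellFounded.induction (wellFounded_lt (α := Fin s)) with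
  | _ i ih =>
    obtain ⟨B, hB, hf⟩ := hinv i
    cases hg : D.gate i with
    | edge a b =>
      obtain ⟨B0, hB0, hed⟩ := hedge a b
      refine claim_input S hB hf hB0 h1 fun σ κ hκ => ?_
      have e0 := hval i (S.a σ S.z0)
      have e1 := hval i (S.a σ (S.z κ))
      rw [hg] at e0 e1
      rw [e0, e1]
      simp only [Gate.value]
      exact if_congr (hed σ κ hκ) rfl rfl
    | sum ψ =>
      refine claim_sum S hB hf h3 (fun h => D.gateFun h) ψ
        (fun c hc l => ih (c l) (D.sum_lt i ψ hg c hc l)) fun ω => ?_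
      have e0 := hval i ω
      rw [hg] at e0
      exact e0
    | threshold ψ θ =>
      refine claim_threshold S hB hf h3 (fun h => D.gateFun h) ψ θ
        (fun c hc l => ih (c l) (D.threshold_lt i ψ θ hg c hc l)) fun ω => ?_
      have e0 := hval i ω
      rw [hg] at e0
      simp only [Gate.value] at e0
      exact ⟨fun h => by rw [e0, if_pos h], fun h => by rw [e0, if_neg h]⟩
    | modular ψ =>
      refine claim_modular S hB hf h3 (fun h => D.gateFun h) ψ
        (fun c hc l => ih (c l) (D.modular_lt i ψ hg c hc l)) fun ω => ?_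
      have e0 := hval i ω
      rw [hg] at e0
      exact e0

/-- Consequence of the claim: `f` has the value `y` on as many images of `z0` as of `z κ0`,
if `κ0 ∈ K ∅`. -/
theorem claim_count {Ω : Type} (S : Sys ι A Ω Κ ℓ) {k : ℕ} (hk : k ≤ S.k') {f : Ω → V}
    (hf : S.Claim k f) {κ0 : Κ} (h0 : κ0 ∈ S.K ∅) (y : V) :
    {σ : ι → A | f (S.a σ S.z0) = y}.ncard = {σ : ι → A | f (S.a σ (S.z κ0)) = y}.ncard := by
  obtain ⟨B, hB, hinv, hcl⟩ := hf
  obtain ⟨κ, hκ, π, hπ, hz⟩ := S.ext ∅ B κ0 (Finset.empty_subset B) (hB.trans hk) h0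
  have himg : {σ : ι → A | f (S.a σ (S.z κ0)) = y} =
      (Equiv.mulRight π) '' {σ : ι → A | f (S.a σ S.z0) = y} := by
    ext σ
    simp only [Set.mem_ofPred_eq, Set.mem_image, Equiv.coe_mulRight]
    constructor
    · intro h
      refine ⟨σ * π⁻¹, ?_, by simp⟩
      rw [hcl (σ * π⁻¹) κ hκ, hz, ← S.a_mul]
      simpa using h
    · rintro ⟨τ, hτ, rfl⟩
      rw [hcl τ κ hκ, hz, ← S.a_mul] at hτ
      exact hτ
  rw [himg, Set.ncard_image_of_injective _ (Equiv.mulRight π).injective]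

end Pool.Agent.SymGap
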