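import Mathlib

/-!
# Project SG, module Alt: alternating groups
-/

namespace Pool.Agent.SymGap

/-- **Module Alt (1).**  `A_m` is perfect for `m ≥ 5`: Mathlib's
`commutator_alternatingGroup_eq_top` (file `GroupTheory/SpecificGroups/Alternating/Centralizer`;
find the namespace) with `Nat.card (Fin m) = m`. -/
theorem alt_perfect {m : ℕ} (hm : 5 ≤ m) : commutator (alternatingGroup (Fin m)) = ⊤ := by
  exact commutator_alternatingGroup_eq_top (by rwa [Nat.card_fin])

/-- **Module Alt (2).**  Proper subgroups of `A_m`, `m ≥ 5`, have index at least `m`.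

PROOF.  `A_m` is simple: `alternatingGroup.isSimpleGroup` (file
`GroupTheory/SpecificGroups/Alternating/Simple`).  Let `K ≠ ⊤`.  The normal core of `K` is normal and
`≤ K`, so it is `⊥` (`IsSimpleGroup.eq_bot_or_eq_top_of_normal`, `Subgroup.normalCore_le`).
By `Subgroup.normalCore_eq_ker` the homomorphism `MulAction.toPermHom A_m (A_m ⧸ K)` is injective, so
`Nat.card A_m ≤ Nat.card (Equiv.Perm (A_m ⧸ K)) = (K.index)!` (`Nat.card_perm`,
`Nat.card_le_card_of_injective`; `A_m ⧸ K` is finite and `K.index = Nat.card (A_m ⧸ K)`).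
`2 * Nat.card A_m = m !` (`two_mul_nat_card_alternatingGroup` or
`two_mul_card_alternatingGroup`, with `Nontrivial (Fin m)`).  If `K.index < m`, then
`K.index ≤ m - 1` and `m ! ≤ 2 * (m - 1)!`, but `m ! = m * (m - 1)!` (`Nat.mul_factorial_pred`) and
`m ≥ 5`: contradiction. -/
theorem alt_index {m : ℕ} (hm : 5 ≤ m) (K : Subgroup (alternatingGroup (Fin m)))
    (hK : K ≠ ⊤) : m ≤ K.index := by
  have hs : IsSimpleGroup (alternatingGroup (Fin m)) :=
    alternatingGroup.isSimpleGroup (by rwa [Nat.card_fin])
  by_contra hlt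
  rw [not_le] at hlt
  have hcore : K.normalCore = ⊥ := by
    rcases IsSimpleGroup.eq_bot_or_eq_top_of_normal K.normalCore K.normalCore_normal with h | h
    · exact h
    · exact absurd (top_le_iff.1 (h ▸ K.normalCore_le)) hK
  have hinj : Function.Injective
      (MulAction.toPermHom (alternatingGroup (Fin m)) (alternatingGroup (Fin m) ⧸ K)) := by
    rw [← MonoidHom.ker_eq_bot_iff, ← Subgroup.normalCore_eq_ker]
    exact hcore
  have h1 : Nat.card (alternatingGroup (Fin m)) ≤
      Nat.card (Equiv.Perm (alternatingGroup (Fin m) ⧸ K)) :=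
    Nat.card_le_card_of_injective _ hinj
  rw [Nat.card_perm] at h1
  have h2 : Nat.card (alternatingGroup (Fin m) ⧸ K) = K.index := rfl
  rw [h2] at h1
  have hn : Nontrivial (Fin m) := Fin.nontrivial_iff_two_le.2 (by omega)
  have h3 : 2 * Nat.card (alternatingGroup (Fin m)) = Nat.factorial m := by
    have h4 := two_mul_nat_card_alternatingGroup (α := Fin m)
    rwa [Nat.card_perm, Nat.card_fin] at h4
  have h5 : Nat.factorial K.index ≤ Nat.factorial (m - 1) :=
    Nat.factorial_le (by omega)
  have h6 : m * Nat.factorial (m - 1) = Nat.factorial m := Nat.mul_factorial_pred (by omega)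
  have h7 : 0 < Nat.factorial (m - 1) := Nat.factorial_pos _
  have h8 : m * Nat.factorial (m - 1) ≤ 2 * Nat.factorial (m - 1) := by
    rw [h6, ← h3]
    omega
  have h9 : m ≤ 2 := Nat.le_of_mul_le_mul_right h8 h7
  omega

end Pool.Agent.SymGap
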