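import Pool.Agent.Lib.MP_0a1b52_lc_SG.Defs2

/-!
# Project SG, module Clq: the cliques of the instances
-/

namespace Pool.Agent.SymGap

variable {p d D M N j m n : ℕ}

/-- `vx` is injective in both arguments.  (As in `MP_0a1b52_lc_SYM/Clq.lean`.) -/
theorem vx_inj (P : Place p d M j m n) {c c' : Fin M} {u u' : Fin d → ZMod p}
    (h : P.vx c u = P.vx c' u') : c = c' ∧ u = u' := by
  have h1 := P.β.injective h
  exact ⟨P.e.injective (congrArg Prod.fst h1), P.pos.injective (congrArg Prod.snd h1)⟩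

/-- **Module Clq (1).**  The instance with offsets `0` has a clique with `M + |U|` vertices: `U` and
the `vx c 0`.  (Adapt `clique_sat` in `MP_0a1b52_lc_SYM/Clq.lean`; `ev 0 = 0`.) -/
theorem clique_sat (P : Place p d M j m n) (v : Fin M → Fin D → Fin N)
    (ev : (Fin d → ZMod p) →+ (Fin D → ZMod p)) :
    ∃ K : Finset (Fin n), (P.inst v ev fun _ _ => 0).IsClique (K : Set (Fin n)) ∧
      K.card = M + P.U.card := by
  classical
  have hcase : ∀ z ∈ (P.U ∪ Finset.univ.image (fun c => P.vx c 0) : Finset (Fin n)),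
      P.Part z ∧ ∀ c u, z = P.vx c u → u = 0 := by
    intro z hz
    rcases Finset.mem_union.1 hz with h | h
    · refine ⟨Or.inl h, fun c u hc => ?_⟩
      rw [hc] at h
      exact absurd h (P.hU c u)
    · obtain ⟨c0, -, rfl⟩ := Finset.mem_image.1 h
      exact ⟨Or.inr ⟨c0, 0, rfl⟩, fun c u hc => (vx_inj P hc).2.symm⟩
  refine ⟨P.U ∪ Finset.univ.image (fun c => P.vx c 0), ?_, ?_⟩
  · intro x hx y hy hxy
    have hx' := hcase x (Finset.mem_coe.1 hx)
    have hy' := hcase y (Finset.mem_coe.1 hy)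
    refine ⟨hxy, hx'.1, hy'.1, fun c u c' u' h1 h2 => ?_⟩
    obtain rfl := hx'.2 c u h1
    obtain rfl := hy'.2 c' u' h2
    refine ⟨fun h3 => hxy (by rw [h1, h2, h3]), fun i _ => rfl⟩
  · rw [Finset.card_union_of_disjoint, Finset.card_image_of_injective, Finset.card_univ,
      Fintype.card_fin, add_comm]
    · exact fun c c' h => (vx_inj P h).1
    · refine Finset.disjoint_left.2 fun x hx hx' => ?_
      obtain ⟨c0, -, rfl⟩ := Finset.mem_image.1 hx'
      exact P.hU c0 0 hx

/-- **Module Clq (2).**  (Adapt `clique_unsat` in `MP_0a1b52_lc_SYM/Clq.lean`.)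

PROOF.  If `K.card ≤ 1`, this follows from `2 ≤ g`.  Otherwise each `x ∈ K` has a neighbour, so it
takes part.  Let `S = {c | ∃ u, vx c u ∈ K}`, and choose `w c` with `vx c (w c) ∈ K` for `c ∈ S`.
Every `x ∈ K`, `x ∉ U`, is `vx c (w c)` for some `c ∈ S`, so `K.card ≤ |U| + S.card`.
Let `κ i y = ev (w c) i + a c i` for some `c ∈ S` with `v c i = y`, if there is one, and
`κ i y = 0` otherwise; by the definition of adjacency this does not depend on `c`.  So for `c ∈ S`
and all `i`: `κ i (v c i) = ev (w c) i + a c i = a c i - ev (-w c) i` (`map_neg`).  Hence `S` is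
contained in the filter of the hypothesis and `S.card < g`. -/
theorem clique_unsat [NeZero p] (P : Place p d M j m n) (v : Fin M → Fin D → Fin N)
    (ev : (Fin d → ZMod p) →+ (Fin D → ZMod p)) (a : Fin M → Fin D → ZMod p)
    {g : ℕ} (hg2 : 2 ≤ g)
    (hg : ∀ κ : Fin D → Fin N → ZMod p,
      (Finset.univ.filter fun c => ∃ u, ∀ i, a c i - ev u i = κ i (v c i)).card < g)
    (K : Finset (Fin n)) (hK : (P.inst v ev a).IsClique (K : Set (Fin n))) :
    K.card < g + P.U.card := by
  classical
  by_contra hcon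
  push Not at hcon
  have hK1 : 1 < K.card := by omega
  have hpart : ∀ x ∈ K, P.Part x := by
    intro x hx
    obtain ⟨y, hy, hne⟩ := Finset.exists_mem_ne hK1 x
    exact (hK (Finset.mem_coe.2 hx) (Finset.mem_coe.2 hy) hne.symm).2.1
  let S : Finset (Fin M) := Finset.univ.filter fun c => ∃ u, P.vx c u ∈ K
  have hS : ∀ c ∈ S, ∃ u, P.vx c u ∈ K := fun c hc => (Finset.mem_filter.1 hc).2
  choose! w hw using hS
  have hsub : K ⊆ P.U ∪ S.image (fun c => P.vx c (w c)) := by
    intro x hx
    rcases hpart x hx with h | ⟨c, u, rfl⟩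
    · exact Finset.mem_union_left _ h
    · have hc : c ∈ S := Finset.mem_filter.2 ⟨Finset.mem_univ _, u, hx⟩
      refine Finset.mem_union_right _ (Finset.mem_image.2 ⟨c, hc, ?_⟩)
      by_contra hne
      exact ((hK (Finset.mem_coe.2 (hw c hc)) (Finset.mem_coe.2 hx) hne).2.2.2 c (w c) c u
        rfl rfl).1 rfl
  have hcard : K.card ≤ P.U.card + S.card :=
    (Finset.card_le_card hsub).trans ((Finset.card_union_le _ _).trans
      (Nat.add_le_add_left Finset.card_image_le _))
  let κ : Fin D → Fin N → ZMod p := fun i y =>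
    if h : ∃ c ∈ S, v c i = y then ev (w h.choose) i + a h.choose i else 0
  have hκ : ∀ c ∈ S, ∀ i, κ i (v c i) = ev (w c) i + a c i := by
    intro c hc i
    have hex : ∃ c' ∈ S, v c' i = v c i := ⟨c, hc, rfl⟩
    have h1 := hex.choose_spec
    change (if h : ∃ c' ∈ S, v c' i = v c i then ev (w h.choose) i + a h.choose i else 0) = _
    rw [dif_pos hex]
    by_cases hcc : hex.choose = c
    · rw [hcc]
    · have hne : P.vx hex.choose (w hex.choose) ≠ P.vx c (w c) := fun h => hcc (vx_inj P h).1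
      exact ((hK (Finset.mem_coe.2 (hw _ h1.1)) (Finset.mem_coe.2 (hw c hc)) hne).2.2.2
        _ _ _ _ rfl rfl).2 i h1.2
  have h2 : S ⊆ Finset.univ.filter (fun c => ∃ u, ∀ i, a c i - ev u i = κ i (v c i)) := by
    intro c hc
    refine Finset.mem_filter.2 ⟨Finset.mem_univ _, -w c, fun i => ?_⟩
    rw [hκ c hc i, map_neg, Pi.neg_apply]
    ring
  have h3 := (Finset.card_le_card h2).trans_lt (hg κ)
  omega

end Pool.Agent.SymGap
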