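import Pool.Agent.Lib.MP_0a1b52_lc_SG.Defs2

/-!
# Project SG, module Core: the claim for the gates
-/

namespace Pool.Agent.SymGap

variable {ι A Ω Κ V : Type} [Group A] {ℓ : ℕ}

/-- If `f` is invariant off `B` and `τ ∈ PB T B`, then `f (σ τ ω) = f (σ ω)` for all `σ`. -/
theorem inv_move (S : Sys ι A Ω Κ ℓ) {f : Ω → V} {B : Finset ι} (hf : Inv S.a f B)
    {τ : ι → A} (hτ : τ ∈ PB S.T B) (σ : ι → A) (ω : Ω) :
    f (S.a σ (S.a τ ω)) = f (S.a σ ω) := by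
  have h1 := hf (σ * τ * σ⁻¹) (fun i hi => by
    simp [(mem_PB.1 hτ).2 i hi]) (S.a σ ω)
  rw [← S.a_mul, inv_mul_cancel_right, S.a_mul] at h1
  exact h1

/-- The claim for an input. -/
theorem claim_input [DecidableEq ι] (S : Sys ι A Ω Κ ℓ) {k : ℕ} {f : Ω → V} {B B0 : Finset ι}
    (hB : B.card ≤ k) (hf : Inv S.a f B) (hB0 : B0.card ≤ 2) (hk : k + 2 ≤ S.k')
    (h : ∀ σ, ∀ κ ∈ S.K B0, f (S.a σ S.z0) = f (S.a σ (S.z κ))) : S.Claim k f := by
  refine ⟨B, hB, hf, fun σ κ hκ => ?_⟩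
  obtain ⟨κ', hκ', τ, hτ, hz⟩ := S.ext B (B ∪ B0) κ Finset.subset_union_left
    ((Finset.card_union_le _ _).trans (by omega)) hκ
  rw [h σ κ' (S.mono B0 (B ∪ B0) κ' Finset.subset_union_right hκ'), hz]
  exact inv_move S hf hτ σ (S.z κ)

/-- Averages over the moves of a function `F` of `t` functions satisfying the claim. -/
theorem avg_eq [DecidableEq ι] {R : Type} [AddCommMonoid R]
    (S : Sys ι A Ω Κ ℓ) {k t : ℕ} {B : Finset ι} [Fintype (PB S.T B)]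
    (hB : B.card ≤ k) (hk : (t + 1) * k ≤ S.k') {g : Fin t → Ω → V}
    (hg : ∀ l, S.Claim k (g l)) (F : (Fin t → V) → R) (σ : ι → A) {κ : Κ} (hκ : κ ∈ S.K B) :
    ∑ τ : PB S.T B, F (fun l => g l (S.a σ (S.a τ S.z0))) =
      ∑ τ : PB S.T B, F (fun l => g l (S.a σ (S.a τ (S.z κ)))) := by
  choose Bl hBl hInv hcl using hg
  have hcard : (B ∪ Finset.univ.biUnion Bl).card ≤ S.k' := by
    refine (Finset.card_union_le _ _).trans (le_trans ?_ hk)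
    have h1 : (Finset.univ.biUnion Bl).card ≤ t * k := by
      refine Finset.card_biUnion_le.trans ?_
      refine (Finset.sum_le_card_nsmul _ _ k fun l _ => hBl l).trans ?_
      rw [Finset.card_univ, Fintype.card_fin, smul_eq_mul]
    rw [add_mul, one_mul]
    omega
  obtain ⟨κ', hκ', π, hπ, hz⟩ := S.ext B (B ∪ Finset.univ.biUnion Bl) κ
    Finset.subset_union_left hcard hκ
  refine Fintype.sum_equiv (Equiv.mulRight (⟨π, hπ⟩ : PB S.T B)) _ _ fun τ => ?_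
  simp only [Equiv.coe_mulRight, Subgroup.coe_mul]
  congr 1
  funext l
  have h1 : κ' ∈ S.K (Bl l) := by
    refine S.mono (Bl l) _ κ' ?_ hκ'
    exact (Finset.subset_biUnion_of_mem Bl (Finset.mem_univ l)).trans
      Finset.subset_union_right
  have h2 := hcl l (σ * τ) κ' h1
  rw [hz, S.a_mul, S.a_mul, ← S.a_mul (τ : ι → A) π] at h2
  rw [h2]

/-- Averages over the moves of a sum of functions of `t` functions. -/
theorem avg_sum [DecidableEq ι] {R : Type} [AddCommMonoid R]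
    (S : Sys ι A Ω Κ ℓ) {k t s : ℕ} {B : Finset ι} [Fintype (PB S.T B)]
    (hB : B.card ≤ k) (hk : (t + 1) * k ≤ S.k') {g : Fin s → Ω → ℝ}
    (ψ : (Fin t → Fin s) → (Fin t → ℝ) → R)
    (hg : ∀ c, ψ c ≠ 0 → ∀ l, S.Claim k (g (c l))) (σ : ι → A) {κ : Κ} (hκ : κ ∈ S.K B) :
    ∑ τ : PB S.T B, ∑ c, ψ c (fun l => g (c l) (S.a σ (S.a τ S.z0))) =
      ∑ τ : PB S.T B, ∑ c, ψ c (fun l => g (c l) (S.a σ (S.a τ (S.z κ)))) := by
  rw [Finset.sum_comm]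
  conv_rhs => rw [Finset.sum_comm]
  refine Finset.sum_congr rfl fun c _ => ?_
  by_cases hc : ψ c = 0
  · rw [hc]
    rfl
  · exact avg_eq S hB hk (g := fun l => g (c l)) (hg c hc) (ψ c) σ hκ

/-- The claim for sums. -/
theorem claim_sum [Fintype ι] [DecidableEq ι] [Fintype A] (S : Sys ι A Ω Κ ℓ) {k t s : ℕ}
    {f : Ω → ℝ} {B : Finset ι} (hB : B.card ≤ k) (hf : Inv S.a f B) (hk : (t + 1) * k ≤ S.k')
    (g : Fin s → Ω → ℝ) (ψ : (Fin t → Fin s) → (Fin t → ℝ) → ℝ)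
    (hg : ∀ c, ψ c ≠ 0 → ∀ l, S.Claim k (g (c l)))
    (h : ∀ ω, f ω = ∑ c, ψ c fun l => g (c l) ω) : S.Claim k f := by
  classical
  refine ⟨B, hB, hf, fun σ κ hκ => ?_⟩
  have : Fintype (PB S.T B) := Fintype.ofFinite _
  have key : ∀ ω0, (Fintype.card (PB S.T B) : ℝ) * f (S.a σ ω0) =
      ∑ τ : PB S.T B, ∑ c, ψ c (fun l => g (c l) (S.a σ (S.a τ ω0))) := by
    intro ω0
    have e1 : ∑ τ : PB S.T B, f (S.a σ (S.a τ ω0)) =
        (Fintype.card (PB S.T B) : ℝ) * f (S.a σ ω0) := by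
      rw [Finset.sum_congr rfl fun τ _ => inv_move S hf τ.2 σ ω0, Finset.sum_const,
        Finset.card_univ, nsmul_eq_mul]
    rw [← e1]
    exact Finset.sum_congr rfl fun τ _ => h _
  have h1 : (Fintype.card (PB S.T B) : ℝ) * f (S.a σ S.z0) =
      (Fintype.card (PB S.T B) : ℝ) * f (S.a σ (S.z κ)) := by
    rw [key, key]
    exact avg_sum S hB hk ψ hg σ hκ
  have h2 : (Fintype.card (PB S.T B) : ℝ) ≠ 0 := by
    have : 0 < Fintype.card (PB S.T B) := Fintype.card_pos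
    exact_mod_cast this.ne'
  exact mul_left_cancel₀ h2 h1

/-- The claim for threshold gates. -/
theorem claim_threshold [Fintype ι] [DecidableEq ι] [Fintype A] (S : Sys ι A Ω Κ ℓ) {k t s : ℕ}
    {f : Ω → ℝ} {B : Finset ι} (hB : B.card ≤ k) (hf : Inv S.a f B) (hk : (t + 1) * k ≤ S.k')
    (g : Fin s → Ω → ℝ) (ψ : (Fin t → Fin s) → (Fin t → ℝ) → ℝ) (θ : ℝ)
    (hg : ∀ c, ψ c ≠ 0 → ∀ l, S.Claim k (g (c l)))
    (h : ∀ ω, (θ ≤ ∑ c, ψ c (fun l => g (c l) ω) → f ω = 1) ∧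
      (¬ θ ≤ ∑ c, ψ c (fun l => g (c l) ω) → f ω = 0)) :
    S.Claim k f := by
  classical
  refine ⟨B, hB, hf, fun σ κ hκ => ?_⟩
  have : Fintype (PB S.T B) := Fintype.ofFinite _
  obtain ⟨L, hL⟩ : ∃ L : Ω → ℝ, L = fun ω => ∑ c, ψ c fun l => g (c l) ω := ⟨_, rfl⟩
  have hfL : ∀ ω, (θ ≤ L ω → f ω = 1) ∧ (¬ θ ≤ L ω → f ω = 0) := fun ω => by
    rw [hL]
    exact h ω
  have hSig : ∑ τ : PB S.T B, L (S.a σ (S.a τ S.z0)) =
      ∑ τ : PB S.T B, L (S.a σ (S.a τ (S.z κ))) := by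
    rw [hL]
    exact avg_sum S hB hk ψ hg σ hκ
  have hinv : ∀ (τ : PB S.T B) (ω : Ω), f (S.a σ (S.a τ ω)) = f (S.a σ ω) := fun τ ω =>
    inv_move S hf τ.2 σ ω
  have key : ∀ ω1 ω2 : Ω, (∑ τ : PB S.T B, L (S.a σ (S.a τ ω1)) =
      ∑ τ : PB S.T B, L (S.a σ (S.a τ ω2))) → f (S.a σ ω1) = 1 → f (S.a σ ω2) = 1 := by
    intro ω1 ω2 he h1
    by_contra h2
    have h3 : ∑ τ : PB S.T B, L (S.a σ (S.a τ ω2)) < ∑ τ : PB S.T B, L (S.a σ (S.a τ ω1)) := by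
      refine Finset.sum_lt_sum_of_nonempty ⟨1, Finset.mem_univ _⟩ fun τ _ => ?_
      have h4 : θ ≤ L (S.a σ (S.a τ ω1)) := by
        by_contra h5
        have h6 := (hfL _).2 h5
        rw [hinv, h1] at h6
        exact one_ne_zero h6
      have h5 : L (S.a σ (S.a τ ω2)) < θ := by
        by_contra h5
        have h6 := (hfL _).1 (not_lt.1 h5)
        rw [hinv] at h6
        exact h2 h6
      exact h5.trans_le h4
    rw [he] at h3
    exact lt_irrefl _ h3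
  have h01 : ∀ ω, f ω = 1 ∨ f ω = 0 := fun ω => by
    by_cases h1 : θ ≤ L ω
    · exact Or.inl ((hfL ω).1 h1)
    · exact Or.inr ((hfL ω).2 h1)
  rcases h01 (S.a σ S.z0) with h1 | h1
  · rw [h1, key _ _ hSig h1]
  · rcases h01 (S.a σ (S.z κ)) with h2 | h2
    · have h3 := key _ _ hSig.symm h2
      rw [h2, h3]
    · rw [h1, h2]

/-- The order of `PB T B` is prime to `ℓ`. -/
theorem PB_coprime [Fintype ι] [Finite A] (T : Subgroup A) (hT : (Nat.card T).Coprime ℓ)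
    (B : Finset ι) : (Nat.card (PB T B)).Coprime ℓ := by
  let F : PB T B →* (ι → T) :=
    { toFun := fun τ i => ⟨τ.1 i, τ.2.1 i⟩
      map_one' := rfl
      map_mul' := fun _ _ => rfl }
  have hF : Function.Injective F := fun a b h =>
    Subtype.ext (funext fun i => congrArg Subtype.val (congrFun h i))
  have h1 : Nat.card (PB T B) ∣ Nat.card (ι → T) := Subgroup.card_dvd_of_injective F hF
  rw [Nat.card_fun] at h1
  exact Nat.Coprime.coprime_dvd_left h1 (Nat.Coprime.pow_left _ hT)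

/-- The claim for modular gates. -/
theorem claim_modular [Fintype ι] [DecidableEq ι] [Fintype A] (S : Sys ι A Ω Κ ℓ) {k t s : ℕ}
    {f : Ω → ℝ} {B : Finset ι} (hB : B.card ≤ k) (hf : Inv S.a f B) (hk : (t + 1) * k ≤ S.k')
    (g : Fin s → Ω → ℝ) (ψ : (Fin t → Fin s) → (Fin t → ℝ) → ℤ)
    (hg : ∀ c, ψ c ≠ 0 → ∀ l, S.Claim k (g (c l)))
    (h : ∀ ω, f ω = (((∑ c, ψ c fun l => g (c l) ω) % (ℓ : ℤ) : ℤ) : ℝ)) : S.Claim k f := by
  classical
  refine ⟨B, hB, hf, fun σ κ hκ => ?_⟩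
  have : Fintype (PB S.T B) := Fintype.ofFinite _
  obtain ⟨N, hNd⟩ : ∃ N : Ω → ℤ, N = fun ω => ∑ c, ψ c fun l => g (c l) ω := ⟨_, rfl⟩
  have hfN : ∀ ω, f ω = ((N ω % (ℓ : ℤ) : ℤ) : ℝ) := fun ω => by
    rw [hNd]
    exact h ω
  have hmod : ∀ ω0, ∀ τ : PB S.T B, N (S.a σ (S.a τ ω0)) ≡ N (S.a σ ω0) [ZMOD ℓ] := by
    intro ω0 τ
    have h1 := inv_move S hf τ.2 σ ω0
    rw [hfN, hfN] at h1
    exact_mod_cast h1
  have hsum : ∀ ω0, ∑ τ : PB S.T B, N (S.a σ (S.a τ ω0)) ≡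
      (Fintype.card (PB S.T B) : ℤ) * N (S.a σ ω0) [ZMOD ℓ] := by
    intro ω0
    have h1 : ∀ T' : Finset (PB S.T B), ∑ τ ∈ T', N (S.a σ (S.a τ ω0)) ≡
        ∑ τ ∈ T', N (S.a σ ω0) [ZMOD ℓ] := by
      intro T'
      induction T' using Finset.induction_on with
      | empty => rfl
      | insert x T' hx ih =>
        rw [Finset.sum_insert hx, Finset.sum_insert hx]
        exact (hmod ω0 x).add ih
    have h2 := h1 Finset.univ
    rw [Finset.sum_const, Finset.card_univ, nsmul_eq_mul] at h2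
    exact h2
  have h3 : ∑ τ : PB S.T B, N (S.a σ (S.a τ S.z0)) =
      ∑ τ : PB S.T B, N (S.a σ (S.a τ (S.z κ))) := by
    rw [hNd]
    exact avg_sum S hB hk ψ hg σ hκ
  have h4 : (Fintype.card (PB S.T B) : ℤ) * N (S.a σ S.z0) ≡
      (Fintype.card (PB S.T B) : ℤ) * N (S.a σ (S.z κ)) [ZMOD ℓ] := by
    have h4 := (hsum S.z0).symm
    rw [h3] at h4
    exact h4.trans (hsum _)
  have h5 : N (S.a σ S.z0) ≡ N (S.a σ (S.z κ)) [ZMOD ℓ] := by
    rw [Int.modEq_iff_dvd, ← mul_sub] at h4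
    rw [Int.modEq_iff_dvd]
    have h6 := PB_coprime (ℓ := ℓ) S.T S.T_cop B
    rw [Nat.card_eq_fintype_card] at h6
    exact (Nat.isCoprime_iff_coprime.2 h6.symm).dvd_of_dvd_mul_left h4
  rw [hfN, hfN]
  exact_mod_cast h5

end Pool.Agent.SymGap
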