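import Mathlib

/-!
# Circuits on graphs and a group of permutations of the vertices (definitions)

`Circuit n s t ℓ`: circuits with `s` gates whose input is a graph on `Fin n`.  The gates have real
values.  A gate is a variable (is `a b` an edge?), or it adds up arbitrarily many terms, each of
which is an arbitrary function of the values of `t` gates, and its value is this sum, or tells
whether this sum is at least a threshold, or it is this sum modulo `ℓ` (if the terms are integers).

`β : Fin j × Fin m ↪ Fin n` is a family of `j` disjoint blocks of `m` vertices; the group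
`Fin j → alternatingGroup (Fin m)` acts on the graphs with vertex set `Fin n`.
-/

namespace Pool.Agent.SymGap

/-- A gate of a circuit with `s` gates whose input is a graph on `Fin n`.  The index `c` runs over
the `t`-tuples of gates; the term of `c` is `ψ c`, a function of the `t` values of these gates. -/
inductive Gate (n s t : ℕ) : Type
  /-- the variable of the pair `a b`: `1` if `a b` is an edge, otherwise `0` -/
  | edge (a b : Fin n) : Gate n s t
  /-- the sum of the terms -/
  | sum (ψ : (Fin t → Fin s) → (Fin t → ℝ) → ℝ) : Gate n s t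
  /-- `1` if the sum of the terms is at least `θ`, otherwise `0` -/
  | threshold (ψ : (Fin t → Fin s) → (Fin t → ℝ) → ℝ) (θ : ℝ) : Gate n s t
  /-- the sum of the (integer) terms modulo `ℓ`, a number in `{0, …, ℓ - 1}` -/
  | modular (ψ : (Fin t → Fin s) → (Fin t → ℝ) → ℤ) : Gate n s t

open Classical in
/-- The value of a gate on the graph `G` when the gates have the values `val`. -/
noncomputable def Gate.value {n s t : ℕ} (ℓ : ℕ) (g : Gate n s t) (G : SimpleGraph (Fin n))
    (val : Fin s → ℝ) : ℝ :=
  match g with
  | .edge a b => if G.Adj a b then 1 else 0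
  | .sum ψ => ∑ c, ψ c fun l => val (c l)
  | .threshold ψ θ => if θ ≤ ∑ c, ψ c fun l => val (c l) then 1 else 0
  | .modular ψ => (((∑ c, ψ c fun l => val (c l)) % (ℓ : ℤ) : ℤ) : ℝ)

/-- A circuit: each gate reads only gates with a smaller number (the term of a `t`-tuple which
contains another gate is the zero function). -/
structure Circuit (n s t ℓ : ℕ) where
  /-- the gates -/
  gate : Fin s → Gate n s t
  /-- the output gate -/
  out : Fin s
  sum_lt : ∀ i ψ, gate i = Gate.sum ψ → ∀ c, ψ c ≠ 0 → ∀ l, c l < i
  threshold_lt : ∀ i ψ θ, gate i = Gate.threshold ψ θ → ∀ c, ψ c ≠ 0 → ∀ l, c l < i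
  modular_lt : ∀ i ψ, gate i = Gate.modular ψ → ∀ c, ψ c ≠ 0 → ∀ l, c l < i

/-- `val` is the vector of the values of the gates of `D` on the graph `G`. -/
def Circuit.IsEval {n s t ℓ : ℕ} (D : Circuit n s t ℓ) (G : SimpleGraph (Fin n))
    (val : Fin s → ℝ) : Prop :=
  ∀ i, val i = (D.gate i).value ℓ G val

/-- The sum of the terms depends on the values of the smaller gates only. -/
theorem sum_congr_lt {s t : ℕ} {R : Type} [AddCommMonoid R]
    (ψ : (Fin t → Fin s) → (Fin t → ℝ) → R) (i : Fin s) (hψ : ∀ c, ψ c ≠ 0 → ∀ l, c l < i)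
    (val val' : Fin s → ℝ) (h : ∀ k < i, val k = val' k) :
    (∑ c, ψ c fun l => val (c l)) = ∑ c, ψ c fun l => val' (c l) := by
  refine Finset.sum_congr rfl fun c _ => ?_
  by_cases hc : ψ c = 0
  · rw [hc]
    rfl
  · rw [show (fun l => val (c l)) = fun l => val' (c l) from
      funext fun l => h _ (hψ c hc l)]

/-- The value of a gate depends on the values of the smaller gates only. -/
theorem Circuit.value_congr {n s t ℓ : ℕ} (D : Circuit n s t ℓ) (G : SimpleGraph (Fin n))
    (i : Fin s) (val val' : Fin s → ℝ) (h : ∀ k < i, val k = val' k) :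
    (D.gate i).value ℓ G val = (D.gate i).value ℓ G val' := by
  cases hg : D.gate i with
  | edge a b => rfl
  | sum ψ =>
    simp only [Gate.value]
    exact sum_congr_lt ψ i (D.sum_lt i ψ hg) val val' h
  | threshold ψ θ =>
    simp only [Gate.value]
    rw [sum_congr_lt ψ i (D.threshold_lt i ψ θ hg) val val' h]
  | modular ψ =>
    simp only [Gate.value]
    rw [sum_congr_lt ψ i (D.modular_lt i ψ hg) val val' h]

/-- The vector of the values exists (and is unique). -/
theorem Circuit.exists_eval {n s t ℓ : ℕ} (D : Circuit n s t ℓ) (G : SimpleGraph (Fin n)) :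
    ∃ val, D.IsEval G val := by
  classical
  obtain ⟨F, hF⟩ : ∃ F : (i : Fin s) → ((k : Fin s) → k < i → ℝ) → ℝ,
      F = fun i r => (D.gate i).value ℓ G (fun k => if h : k < i then r k h else 0) := ⟨_, rfl⟩
  refine ⟨WellFounded.fix (wellFounded_lt (α := Fin s)) F, fun i => ?_⟩
  have h1 := WellFounded.fix_eq (wellFounded_lt (α := Fin s)) F i
  generalize WellFounded.fix (wellFounded_lt (α := Fin s)) F = val at h1 ⊢
  rw [h1, hF]
  exact D.value_congr G i _ _ fun k hk => dif_pos hk

theorem Circuit.eval_unique {n s t ℓ : ℕ} (D : Circuit n s t ℓ) (G : SimpleGraph (Fin n))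
    {val val' : Fin s → ℝ} (h : D.IsEval G val) (h' : D.IsEval G val') : val = val' := by
  funext i
  induction i using WellFoundedLT.induction with
  | ind i ih => exact (h i).trans ((D.value_congr G i val val' ih).trans (h' i).symm)

/-- The function of graphs computed by the gate `i`. -/
noncomputable def Circuit.gateFun {n s t ℓ : ℕ} (D : Circuit n s t ℓ) (i : Fin s)
    (G : SimpleGraph (Fin n)) : ℝ :=
  (D.exists_eval G).choose i

/-- The permutation of the vertices which permutes the block `i` by `σ i`. -/
noncomputable def perm {j m n : ℕ} (β : Fin j × Fin m ↪ Fin n)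
    (σ : Fin j → alternatingGroup (Fin m)) : Equiv.Perm (Fin n) :=
  Equiv.Perm.viaEmbedding (Equiv.prodCongrRight fun i => (σ i : Equiv.Perm (Fin m))) β

/-- The image of the graph `G` under `perm β σ`. -/
noncomputable def act {j m n : ℕ} (β : Fin j × Fin m ↪ Fin n)
    (σ : Fin j → alternatingGroup (Fin m)) (G : SimpleGraph (Fin n)) : SimpleGraph (Fin n) :=
  G.comap ⇑(perm β σ)⁻¹

/-- The images of a function of graphs under the group. -/
def images {j m n : ℕ} (β : Fin j × Fin m ↪ Fin n) (f : SimpleGraph (Fin n) → ℝ) :
    Set (SimpleGraph (Fin n) → ℝ) :=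
  {h | ∃ σ : Fin j → alternatingGroup (Fin m), h = fun G => f (act β σ G)}

end Pool.Agent.SymGap
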