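import Pool.Agent.Lib.MP_0a1b52_lc_SG.Defs

/-!
# Internal definitions of project SG
-/

namespace Pool.Agent.SymGap

section core

variable {ι A Ω Κ V : Type} [Group A]

/-- The elements of the group with values in `T` which are trivial on `B`. -/
def PB (T : Subgroup A) (B : Finset ι) : Subgroup (ι → A) where
  carrier := {τ | (∀ i, τ i ∈ T) ∧ ∀ i ∈ B, τ i = 1}
  mul_mem' := by
    rintro a b ⟨ha, ha'⟩ ⟨hb, hb'⟩
    refine ⟨fun i => T.mul_mem (ha i) (hb i), fun i hi => ?_⟩
    simp [ha' i hi, hb' i hi]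
  one_mem' := ⟨fun _ => T.one_mem, fun _ _ => rfl⟩
  inv_mem' := by
    rintro a ⟨ha, ha'⟩
    refine ⟨fun i => T.inv_mem (ha i), fun i hi => ?_⟩
    simp [ha' i hi]

theorem mem_PB {T : Subgroup A} {B : Finset ι} {τ : ι → A} :
    τ ∈ PB T B ↔ (∀ i, τ i ∈ T) ∧ ∀ i ∈ B, τ i = 1 := Iff.rfl

/-- `f` does not change under the elements of the group which are trivial on `B`. -/
def Inv (a : (ι → A) → Ω → Ω) (f : Ω → V) (B : Finset ι) : Prop :=
  ∀ τ : ι → A, (∀ i ∈ B, τ i = 1) → ∀ ω, f (a τ ω) = f ω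

/-- The data of the induction over the gates: the group `ι → A` acts on `Ω`; `z0` and `z κ`
(`κ : Κ`) are points of `Ω`; if `κ ∈ K B`, then `z κ` looks like `z0` near `B`. -/
structure Sys (ι A Ω Κ : Type) [Group A] (ℓ : ℕ) where
  a : (ι → A) → Ω → Ω
  a_mul : ∀ σ τ ω, a (σ * τ) ω = a σ (a τ ω)
  T : Subgroup A
  T_cop : (Nat.card T).Coprime ℓ
  z0 : Ω
  z : Κ → Ω
  K : Finset ι → Set Κ
  k' : ℕ
  mono : ∀ B B' κ, B ⊆ B' → κ ∈ K B' → κ ∈ K B
  ext : ∀ B B' κ, B ⊆ B' → B'.card ≤ k' → κ ∈ K B →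
    ∃ κ' ∈ K B', ∃ τ ∈ PB T B, z κ' = a τ (z κ)

/-- The claim of the induction. -/
def Sys.Claim {ℓ : ℕ} (S : Sys ι A Ω Κ ℓ) (k : ℕ) (f : Ω → V) : Prop :=
  ∃ B : Finset ι, B.card ≤ k ∧ Inv S.a f B ∧
    ∀ (σ : ι → A), ∀ κ ∈ S.K B, f (S.a σ S.z0) = f (S.a σ (S.z κ))

end core

section hyper

variable {M N D d p : ℕ}

/-- The variables of the constraints in `S`; the constraint `c` has the variables
`(i, v c i)`, `i : Fin D`. -/
def vars (v : Fin M → Fin D → Fin N) (S : Finset (Fin M)) : Finset (Fin D × Fin N) :=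
  Finset.univ.filter fun x => ∃ c ∈ S, v c x.1 = x.2

/-- The variables which belong to exactly one constraint in `S`. -/
def bdry (v : Fin M → Fin D → Fin N) (S : Finset (Fin M)) : Finset (Fin D × Fin N) :=
  Finset.univ.filter fun x => (S.filter fun c => v c x.1 = x.2).card = 1

/-- Boundary expansion by the factor `e` up to the size `s0`. -/
def Expands (v : Fin M → Fin D → Fin N) (e s0 : ℕ) : Prop :=
  ∀ S : Finset (Fin M), S.card ≤ s0 → e * S.card ≤ (bdry v S).card

/-- No constraint of `S` has `e` boundary variables which are not variables of `B`. -/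
def Stuck (v : Fin M → Fin D → Fin N) (e : ℕ) (B S : Finset (Fin M)) : Prop :=
  ∀ c ∈ S, (Finset.univ.filter fun i : Fin D => (i, v c i) ∈ bdry v S ∧
    (i, v c i) ∉ vars v B).card < e

/-- Any values at `d` places are taken by a code word. -/
def MDS (ev : (Fin d → ZMod p) →+ (Fin D → ZMod p)) : Prop :=
  ∀ J : Finset (Fin D), J.card ≤ d → ∀ y : Fin D → ZMod p, ∃ w, ∀ i ∈ J, ev w i = y i

/-- The pairs `(w, κ)` such that `b c - ev (w c)` is the restriction of `κ` to the variables of `c`,
for each `c` in a stuck set of at most `s1` constraints. -/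
def locSol (v : Fin M → Fin D → Fin N) (ev : (Fin d → ZMod p) →+ (Fin D → ZMod p))
    (b : Fin M → Fin D → ZMod p) (e s1 : ℕ) (B : Finset (Fin M)) :
    Set ((Fin M → Fin d → ZMod p) × (Fin D → Fin N → ZMod p)) :=
  {x | ∀ S : Finset (Fin M), S.card ≤ s1 → Stuck v e B S →
    ∀ c ∈ S, ∀ i, b c i - ev (x.1 c) i = x.2 i (v c i)}

end hyper

section inst

variable {p d D M N j m n : ℕ}

/-- The geometry of the instance: `M` of the `j` blocks carry constraints, `p ^ d` vertices of
such a block are local solutions, and `U` is a set of further vertices. -/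
structure Place (p d M j m n : ℕ) where
  β : Fin j × Fin m ↪ Fin n
  e : Fin M ↪ Fin j
  pos : (Fin d → ZMod p) ↪ Fin m
  U : Finset (Fin n)
  hU : ∀ c u, β (e c, pos u) ∉ U

/-- The vertex of the local solution `u` of the constraint `c`. -/
def Place.vx (P : Place p d M j m n) (c : Fin M) (u : Fin d → ZMod p) : Fin n :=
  P.β (P.e c, P.pos u)

/-- The vertices which take part. -/
def Place.Part (P : Place p d M j m n) (x : Fin n) : Prop :=
  x ∈ P.U ∨ ∃ c u, x = P.vx c u

/-- The graph of the system of constraints with offsets `a`: two local solutions (of different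
constraints) are adjacent if they agree on the common variables (the local solution `u` of `c`
gives the value `ev u i + a c i` to the variable `(i, v c i)`); the vertices in `U` are adjacent to
all vertices which take part. -/
def Place.inst (P : Place p d M j m n) (v : Fin M → Fin D → Fin N)
    (ev : (Fin d → ZMod p) →+ (Fin D → ZMod p)) (a : Fin M → Fin D → ZMod p) :
    SimpleGraph (Fin n) where
  Adj x y := x ≠ y ∧ P.Part x ∧ P.Part y ∧ ∀ c u c' u', x = P.vx c u → y = P.vx c' u' →
    c ≠ c' ∧ ∀ i, v c i = v c' i → ev u i + a c i = ev u' i + a c' i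
  symm := by
    constructor
    rintro x y ⟨h1, h2, h3, h4⟩
    refine ⟨h1.symm, h3, h2, fun c u c' u' hx hy => ?_⟩
    obtain ⟨h5, h6⟩ := h4 c' u' c u hy hx
    exact ⟨h5.symm, fun i hi => (h6 i hi.symm).symm⟩
  loopless := by
    constructor
    rintro x ⟨h, -⟩
    exact h rfl

end inst

end Pool.Agent.SymGap
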