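import Pool.Agent.Lib.MP_0a1b52_lc_SG.Defs2

/-!
# Project SG, module ExpA: few variables if the boundary is small; counting
-/

namespace Pool.Agent.SymGap

/-- **Module ExpA (1).**  (Adapt `vars_lt` in `MP_0a1b52_lc_SYM/ExpA.lean`.)

PROOF.  For `x : Fin D × Fin N` let `δ x = (S.filter fun c => v c x.1 = x.2).card`.  Then
`∑ x, δ x = D * S.card` (double counting).  `x ∈ vars v S ↔ 1 ≤ δ x`, `x ∈ bdry v S ↔ δ x = 1`.
For all `x`: `2 * [x ∈ vars] ≤ δ x + [x ∈ bdry]`; sum:
`2 * (vars v S).card ≤ D * S.card + (bdry v S).card < (D + e) * S.card = 2 * a * S.card`. -/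
theorem vars_lt {M N D a e : ℕ} (hD : 2 * a = D + e) (v : Fin M → Fin D → Fin N)
    (S : Finset (Fin M)) (h : (bdry v S).card < e * S.card) :
    (vars v S).card < a * S.card := by
  have hsum : ∑ x : Fin D × Fin N, (S.filter fun c => v c x.1 = x.2).card = D * S.card := by
    simp only [Finset.card_filter]
    rw [Finset.sum_comm]
    have h1 : ∀ c ∈ S, ∑ x : Fin D × Fin N, (if v c x.1 = x.2 then 1 else 0) = D := by
      intro c _
      rw [Fintype.sum_prod_type]
      simp
    rw [Finset.sum_congr rfl h1, Finset.sum_const, smul_eq_mul, mul_comm]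
  have hv : (vars v S).card = ∑ x : Fin D × Fin N, if ∃ c ∈ S, v c x.1 = x.2 then 1 else 0 := by
    rw [vars, Finset.card_filter]
  have hb : (bdry v S).card = ∑ x : Fin D × Fin N,
      if (S.filter fun c => v c x.1 = x.2).card = 1 then 1 else 0 := by
    rw [bdry, Finset.card_filter]
  have hle : 2 * (vars v S).card ≤ D * S.card + (bdry v S).card := by
    rw [← hsum, hv, hb, Finset.mul_sum, ← Finset.sum_add_distrib]
    refine Finset.sum_le_sum fun x _ => ?_
    by_cases hx : ∃ c ∈ S, v c x.1 = x.2
    · rw [if_pos hx]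
      obtain ⟨c, hc, hcx⟩ := hx
      have h1 : 0 < (S.filter fun c => v c x.1 = x.2).card :=
        Finset.card_pos.2 ⟨c, Finset.mem_filter.2 ⟨hc, hcx⟩⟩
      split_ifs <;> omega
    · rw [if_neg hx]
      exact Nat.zero_le _
  have h2 : 2 * (a * S.card) = D * S.card + e * S.card := by
    rw [← mul_assoc, hD, add_mul]
  omega

/-- **Module ExpA (2).**  Number of the `v` for which all variables of `S` are in `Y`.
(Adapt `count_le` in `MP_0a1b52_lc_SYM/ExpA.lean`.) -/
theorem count_le {M N D y : ℕ} (S : Finset (Fin M)) (Y : Finset (Fin D × Fin N))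
    (hY : Y.card ≤ y) :
    (Finset.univ.filter fun v : Fin M → Fin D → Fin N => vars v S ⊆ Y).card ≤
      y ^ (D * S.card) * N ^ (D * (M - S.card)) := by
  classical
  set Yi : Fin D → Finset (Fin N) := fun i => (Y.filter fun x => x.1 = i).image Prod.snd with hYi
  have hcard : ∀ i, (Yi i).card ≤ y := fun i =>
    (Finset.card_image_le.trans (Finset.card_filter_le _ _)).trans hY
  have hsub : (Finset.univ.filter fun v : Fin M → Fin D → Fin N => vars v S ⊆ Y) ⊆
      Fintype.piFinset fun c => if c ∈ S then Fintype.piFinset Yi else Finset.univ := by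
    intro v hv
    rw [Finset.mem_filter] at hv
    rw [Fintype.mem_piFinset]
    intro c
    split_ifs with hc
    · rw [Fintype.mem_piFinset]
      intro i
      have h1 : (i, v c i) ∈ Y := hv.2 (Finset.mem_filter.2 ⟨Finset.mem_univ _, c, hc, rfl⟩)
      exact Finset.mem_image.2 ⟨(i, v c i), Finset.mem_filter.2 ⟨h1, rfl⟩, rfl⟩
    · exact Finset.mem_univ _
  refine (Finset.card_le_card hsub).trans ?_
  rw [Fintype.card_piFinset]
  have h1 : ∀ c : Fin M, (if c ∈ S then Fintype.piFinset Yi else
      (Finset.univ : Finset (Fin D → Fin N))).card ≤ if c ∈ S then y ^ D else N ^ D := by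
    intro c
    split_ifs
    · rw [Fintype.card_piFinset]
      refine (Finset.prod_le_prod' fun i _ => hcard i).trans (le_of_eq ?_)
      simp
    · simp
  refine (Finset.prod_le_prod' fun c _ => h1 c).trans (le_of_eq ?_)
  rw [← Finset.prod_mul_prod_compl S]
  rw [Finset.prod_congr rfl fun c (hc : c ∈ S) => if_pos hc,
    Finset.prod_congr rfl fun c (hc : c ∈ Sᶜ) => if_neg (Finset.mem_compl.1 hc),
    Finset.prod_const, Finset.prod_const, Finset.card_compl, Fintype.card_fin, pow_mul, pow_mul]

end Pool.Agent.SymGap
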