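import Mathlib

/-!
# Project SG, module ExpC: the numerical estimates
-/

namespace Pool.Agent.SymGap

/-- **Module ExpC (1).**  Copy `choose_pow_le` from the finished file
`MP_0a1b52_lc_SYM/ExpC.lean`. -/
theorem choose_pow_le (n k : ℕ) : n.choose k * k ^ k ≤ (3 * n) ^ k := by
  have h1 : n.choose k * k.factorial ≤ n ^ k := by
    have h2 := Nat.descFactorial_eq_factorial_mul_choose n k
    have h3 := Nat.descFactorial_le_pow n k
    rw [h2] at h3
    rwa [mul_comm] at h3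
  have h2 : (k : ℝ) ^ k ≤ (k.factorial : ℝ) * 3 ^ k := by
    have h3 := Real.pow_div_factorial_le_exp (k : ℝ) (Nat.cast_nonneg k) k
    have h4 : Real.exp (k : ℝ) ≤ 3 ^ k := by
      have h5 : Real.exp (k : ℝ) = Real.exp 1 ^ k := by
        rw [← Real.exp_nat_mul, mul_one]
      rw [h5]
      have h6 := Real.exp_one_lt_d9
      exact pow_le_pow_left₀ (Real.exp_pos 1).le (by linarith) k
    have h5 : (0 : ℝ) < k.factorial := by exact_mod_cast Nat.factorial_pos k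
    rw [div_le_iff₀ h5] at h3
    nlinarith
  have h3 : k ^ k ≤ k.factorial * 3 ^ k := by exact_mod_cast h2
  calc n.choose k * k ^ k ≤ n.choose k * (k.factorial * 3 ^ k) := Nat.mul_le_mul_left _ h3
    _ = n.choose k * k.factorial * 3 ^ k := by ring
    _ ≤ n ^ k * 3 ^ k := Nat.mul_le_mul_right _ h1
    _ = (3 * n) ^ k := by rw [mul_pow, mul_comm]

/-- **Module ExpC (2).**  The estimate of the union bound.

PROOF.  `K0 = 6 * (3 * D) ^ a * a ^ (h + 1)`.  Multiply the left-hand side by `s ^ s`.  By (1),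
`C(M, s) * s ^ s ≤ (3 M) ^ s ≤ (3 C0 N) ^ s` and
`C(D N, a s) * (a s) ^ (a s) ≤ (3 D N) ^ (a s)`, and `D s = a s + (h + 1) s`.  So
`s ^ s * LHS ≤ 2 ^ s (3 C0 N) ^ s (3 D N) ^ (a s) (a s) ^ ((h + 1) s)
  = [6 C0 (3 D) ^ a a ^ (h + 1) * N ^ (a + 1) * s ^ (h + 1)] ^ s
  = [K0 C0 s ^ h * N ^ (a + 1) * s] ^ s ≤ [N ^ h * N ^ (a + 1) * s] ^ s = s ^ s * N ^ (D s)`;
cancel `s ^ s > 0`. -/
theorem exp_num {D a h : ℕ} (hD : a + h + 1 = D) (ha : 1 ≤ a) : ∃ K0 : ℕ, 1 ≤ K0 ∧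
    ∀ C0 N M s0 s : ℕ, 1 ≤ C0 → 1 ≤ N → M ≤ C0 * N → K0 * C0 * s0 ^ h ≤ N ^ h → 1 ≤ s → s ≤ s0 →
    2 ^ s * (M.choose s * (D * N).choose (a * s) * (a * s) ^ (D * s)) ≤ N ^ (D * s) := by
  refine ⟨6 * (3 * D) ^ a * a ^ (h + 1), ?_, ?_⟩
  · have k1 : 1 ≤ (3 * D) ^ a := Nat.one_le_pow _ _ (by omega)
    have k2 : 1 ≤ a ^ (h + 1) := Nat.one_le_pow _ _ ha
    exact Nat.mul_pos (Nat.mul_pos (by norm_num) k1) k2
  intro C0 N M s0 s hC hN hM hK hs hs0
  obtain ⟨K0, hK0⟩ : ∃ K0 : ℕ, K0 = 6 * (3 * D) ^ a * a ^ (h + 1) := ⟨_, rfl⟩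
  rw [← hK0] at hK
  have hKC : K0 * C0 * s ^ h ≤ N ^ h :=
    (Nat.mul_le_mul_left _ (Nat.pow_le_pow_left hs0 h)).trans hK
  have h1 : M.choose s * s ^ s ≤ (3 * (C0 * N)) ^ s :=
    (choose_pow_le M s).trans (Nat.pow_le_pow_left (Nat.mul_le_mul_left _ hM) s)
  have h2 : (D * N).choose (a * s) * (a * s) ^ (a * s) ≤ (3 * (D * N)) ^ (a * s) :=
    choose_pow_le (D * N) (a * s)
  have hDs : D * s = a * s + (h + 1) * s := by
    rw [← hD]
    ring
  have h3 : (2 ^ s * (M.choose s * (D * N).choose (a * s) * (a * s) ^ (D * s))) * s ^ s ≤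
      N ^ (D * s) * s ^ s := by
    calc (2 ^ s * (M.choose s * (D * N).choose (a * s) * (a * s) ^ (D * s))) * s ^ s
        = 2 ^ s * (M.choose s * s ^ s) * ((D * N).choose (a * s) * (a * s) ^ (a * s)) *
          (a * s) ^ ((h + 1) * s) := by
          rw [hDs, pow_add (a * s)]
          ring
      _ ≤ 2 ^ s * (3 * (C0 * N)) ^ s * (3 * (D * N)) ^ (a * s) * (a * s) ^ ((h + 1) * s) :=
          Nat.mul_le_mul_right _ (Nat.mul_le_mul (Nat.mul_le_mul_left _ h1) h2)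
      _ = (K0 * C0 * s ^ h * (N ^ (a + 1) * s)) ^ s := by
          rw [pow_mul (3 * (D * N)), pow_mul (a * s) (h + 1), ← mul_pow, ← mul_pow, ← mul_pow, hK0]
          congr 1
          rw [← mul_assoc 3 D N, mul_pow (3 * D) N a, mul_pow a s (h + 1), pow_succ s h,
            pow_succ N a]
          ring
      _ ≤ (N ^ h * (N ^ (a + 1) * s)) ^ s :=
          Nat.pow_le_pow_left (Nat.mul_le_mul_right _ hKC) s
      _ = N ^ (D * s) * s ^ s := by
          rw [← mul_assoc, mul_pow _ s s, ← pow_add, ← pow_mul, ← hD]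
          congr 2
          ring
  exact Nat.le_of_mul_le_mul_right h3 (Nat.pow_pos hs)

end Pool.Agent.SymGap
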