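import Pool.Agent.Lib.MP_0a1b52_lc_SG.ExpA
import Pool.Agent.Lib.MP_0a1b52_lc_SG.ExpC

/-!
# Project SG, module ExpD: existence of expanding hypergraphs
-/

namespace Pool.Agent.SymGap

private theorem ExpD_geom (n : ℕ) : ∑ s ∈ Finset.Icc 1 n, (1 / 2 : ℝ) ^ s = 1 - (1 / 2) ^ n := by
  induction n with
  | zero => simp
  | succ n ih =>
    rw [Finset.sum_Icc_succ_top (by omega), ih, pow_succ]
    ring

/-- the cover of the non-expanding `v` -/
private theorem ExpD_cover {D a e N M s0 : ℕ} (hDe : 2 * a = D + e) (haD : a ≤ D) (hs0 : s0 ≤ N)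
    (h : ∀ v : Fin M → Fin D → Fin N, ¬ Expands v e s0) :
    (Finset.univ : Finset (Fin M → Fin D → Fin N)) ⊆
      (Finset.Icc 1 s0).biUnion fun s =>
        (Finset.powersetCard s (Finset.univ : Finset (Fin M))).biUnion fun S =>
          (Finset.powersetCard (a * s) (Finset.univ : Finset (Fin D × Fin N))).biUnion
            fun Y => Finset.univ.filter fun v => vars v S ⊆ Y := by
  intro v _
  have h1 := h v
  unfold Expands at h1
  push Not at h1
  obtain ⟨S, hS, hb⟩ := h1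
  have h2 := vars_lt hDe v S hb
  have h3 : (vars v S).card ≤ a * S.card := h2.le
  have hpos : 1 ≤ S.card := by
    by_contra hcon
    have h0 : S.card = 0 := by omega
    rw [h0, mul_zero] at hb
    exact absurd hb (Nat.not_lt_zero _)
  have h4 : a * S.card ≤ Fintype.card (Fin D × Fin N) := by
    rw [Fintype.card_prod, Fintype.card_fin, Fintype.card_fin]
    exact Nat.mul_le_mul haD (hS.trans hs0)
  obtain ⟨Y, hY, hYc⟩ := Finset.exists_superset_card_eq h3 h4
  simp only [Finset.mem_biUnion, Finset.mem_Icc, Finset.mem_powersetCard, Finset.mem_filter,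
    Finset.mem_univ, Finset.subset_univ, true_and]
  exact ⟨S.card, ⟨hpos, hS⟩, S, rfl, Y, hYc, hY⟩

private theorem ExpD_card {D a e N M s0 : ℕ} (hDe : 2 * a = D + e) (haD : a ≤ D) (hs0 : s0 ≤ N)
    (h : ∀ v : Fin M → Fin D → Fin N, ¬ Expands v e s0) :
    N ^ (D * M) ≤ ∑ s ∈ Finset.Icc 1 s0,
      M.choose s * ((D * N).choose (a * s) * ((a * s) ^ (D * s) * N ^ (D * (M - s)))) := by
  have h1 := Finset.card_le_card (ExpD_cover hDe haD hs0 h)
  have h2 : (Finset.univ : Finset (Fin M → Fin D → Fin N)).card = N ^ (D * M) := by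
    rw [Finset.card_univ, Fintype.card_fun, Fintype.card_fun, Fintype.card_fin, Fintype.card_fin,
      Fintype.card_fin, ← pow_mul]
  rw [h2] at h1
  refine h1.trans (Finset.card_biUnion_le.trans (Finset.sum_le_sum fun s _ => ?_))
  have h3 : (Finset.powersetCard s (Finset.univ : Finset (Fin M))).card = M.choose s := by
    rw [Finset.card_powersetCard, Finset.card_univ, Fintype.card_fin]
  have h4 : (Finset.powersetCard (a * s) (Finset.univ : Finset (Fin D × Fin N))).card =
      (D * N).choose (a * s) := by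
    rw [Finset.card_powersetCard, Finset.card_univ, Fintype.card_prod, Fintype.card_fin,
      Fintype.card_fin]
  refine (Finset.card_biUnion_le_card_mul _ _ ((D * N).choose (a * s) *
    ((a * s) ^ (D * s) * N ^ (D * (M - s)))) fun S hS => ?_).trans (by rw [h3])
  refine (Finset.card_biUnion_le_card_mul _ _ ((a * s) ^ (D * s) * N ^ (D * (M - s)))
    fun Y hY => ?_).trans (by rw [h4])
  have h5 : S.card = s := (Finset.mem_powersetCard.1 hS).2
  have h6 : Y.card = a * s := (Finset.mem_powersetCard.1 hY).2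
  have h7 := count_le S Y h6.le
  rw [h5] at h7
  exact h7

/-- **Module ExpD.**  There are `v` with boundary expansion by the factor `e`.
(Adapt `exists_expands` in `MP_0a1b52_lc_SYM/ExpD.lean`.)

PROOF.  Take `K0` from `exp_num`.  Suppose no `v` is expanding up to `s0`.  Then for each `v`
(there are `N ^ (D M)` of them) there is `S` with `S.card ≤ s0`,
`(bdry v S).card < e * S.card`; so `s = S.card ≥ 1` and by `vars_lt`
`(vars v S).card < a * s`; `a * s ≤ D * N`, as `s ≤ s0 ≤ N` (from `K0 * C0 * s0 ^ h ≤ N ^ h`,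
`h ≥ 1`) and `a ≤ D`; so there is `Y ⊇ vars v S` with `Y.card = a * s`
(`Finset.exists_superset_card_eq`, `Fintype.card (Fin D × Fin N) = D N`).  Thus the `v` are covered
by the sets of `count_le` over all `s ∈ Finset.Icc 1 s0`,
`S ∈ Finset.powersetCard s univ`, `Y ∈ Finset.powersetCard (a s) univ`:
`N ^ (D M) ≤ ∑ s ∈ Icc 1 s0, C(M, s) * C(D N, a s) * (a s) ^ (D s) * N ^ (D (M - s))`.
For `s > M` the binomial is `0`; for `s ≤ M`, `N ^ (D (M - s)) * N ^ (D s) = N ^ (D M)`.  By
`exp_num` the term for `s` times `2 ^ s` is `≤ N ^ (D M)`; so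
`N ^ (D M) ≤ N ^ (D M) * ∑ s ∈ Icc 1 s0, (1/2) ^ s < N ^ (D M)`: contradiction. -/
theorem exists_expands {D a h e : ℕ} (hD : a + h + 1 = D) (hDe : 2 * a = D + e) (ha : 1 ≤ a)
    (hh : 1 ≤ h) : ∃ K0 : ℕ, 1 ≤ K0 ∧ ∀ C0 N M s0 : ℕ, 1 ≤ C0 → 1 ≤ N → M ≤ C0 * N →
      K0 * C0 * s0 ^ h ≤ N ^ h → ∃ v : Fin M → Fin D → Fin N, Expands v e s0 := by
  obtain ⟨K0, hK0, hnum⟩ := exp_num hD ha
  have haD : a ≤ D := by omega
  refine ⟨K0, hK0, fun C0 N M s0 hC hN hM hs => ?_⟩
  by_contra hcon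
  push Not at hcon
  have hs0 : s0 ≤ N := by
    have h1 : s0 ^ h ≤ N ^ h := by
      refine le_trans ?_ hs
      have h2 : 1 ≤ K0 * C0 := Nat.mul_pos hK0 hC
      exact Nat.le_mul_of_pos_left _ h2
    exact le_of_pow_le_pow_left₀ (by omega) (Nat.zero_le _) h1
  have hcard := ExpD_card hDe haD hs0 hcon
  have hterm : ∀ s ∈ Finset.Icc 1 s0, ((M.choose s * ((D * N).choose (a * s) *
      ((a * s) ^ (D * s) * N ^ (D * (M - s)))) : ℕ) : ℝ) ≤
      (N : ℝ) ^ (D * M) * (1 / 2) ^ s := by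
    intro s hs1
    rw [Finset.mem_Icc] at hs1
    have h1 : 2 ^ s * (M.choose s * ((D * N).choose (a * s) *
        ((a * s) ^ (D * s) * N ^ (D * (M - s))))) ≤ N ^ (D * M) := by
      rcases lt_or_ge M s with h2 | h2
      · rw [Nat.choose_eq_zero_of_lt h2, zero_mul, mul_zero]
        exact Nat.zero_le _
      · have h3 := hnum C0 N M s0 s hC hN hM hs hs1.1 hs1.2
        have h4 : N ^ (D * M) = N ^ (D * s) * N ^ (D * (M - s)) := by
          rw [← pow_add, ← mul_add]
          congr 2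
          omega
        rw [h4]
        calc 2 ^ s * (M.choose s * ((D * N).choose (a * s) *
              ((a * s) ^ (D * s) * N ^ (D * (M - s)))))
            = 2 ^ s * (M.choose s * (D * N).choose (a * s) * (a * s) ^ (D * s)) *
              N ^ (D * (M - s)) := by ring
          _ ≤ N ^ (D * s) * N ^ (D * (M - s)) := Nat.mul_le_mul_right _ h3
    have h2 : (2 : ℝ) ^ s * ((M.choose s * ((D * N).choose (a * s) *
        ((a * s) ^ (D * s) * N ^ (D * (M - s)))) : ℕ) : ℝ) ≤ (N : ℝ) ^ (D * M) := by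
      exact_mod_cast h1
    rw [one_div, inv_pow, ← div_eq_mul_inv, le_div_iff₀ (by positivity), mul_comm]
    exact h2
  have h1 : (N : ℝ) ^ (D * M) ≤ (N : ℝ) ^ (D * M) * (1 - (1 / 2) ^ s0) := by
    calc (N : ℝ) ^ (D * M) ≤ ((∑ s ∈ Finset.Icc 1 s0,
          M.choose s * ((D * N).choose (a * s) *
            ((a * s) ^ (D * s) * N ^ (D * (M - s)))) : ℕ) : ℝ) := by exact_mod_cast hcard
      _ = ∑ s ∈ Finset.Icc 1 s0, ((M.choose s * ((D * N).choose (a * s) *
            ((a * s) ^ (D * s) * N ^ (D * (M - s)))) : ℕ) : ℝ) := Nat.cast_sum _ _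
      _ ≤ ∑ s ∈ Finset.Icc 1 s0, (N : ℝ) ^ (D * M) * (1 / 2) ^ s := Finset.sum_le_sum hterm
      _ = (N : ℝ) ^ (D * M) * (1 - (1 / 2) ^ s0) := by rw [← Finset.mul_sum, ExpD_geom]
  have hN0 : (0 : ℝ) < (N : ℝ) ^ (D * M) := by
    have : (0 : ℝ) < N := by exact_mod_cast hN
    positivity
  have h2 : (0 : ℝ) < (1 / 2) ^ s0 := by positivity
  nlinarith

end Pool.Agent.SymGap
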