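import Pool.Agent.Lib.MP_0a1b52_lc_SG.Defs2
import Pool.Agent.Lib.MP_0a1b52_lc_SG.ExpC

/-!
# Project SG, module Far: offsets far from all solutions
-/

namespace Pool.Agent.SymGap

/-- **Module Far (1).**  (Compare `agree_card` in `MP_0a1b52_lc_SYM/Far.lean`.)

PROOF.  If the condition holds for `g` or more `c`, there is `G` with `G.card = g` such that it holds
for all `c ∈ G` (`Finset.exists_subset_card_eq`).  For each of the `C(M, g)` sets `G` the number of
these `b` is at most `(p ^ d) ^ g * (p ^ D) ^ (M - g)`: for `c ∈ G`, `b c` is in the image of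
`u ↦ (i ↦ ev u i + x c i)`, a set with at most `p ^ d` elements (`Fintype.piFinset` with this image
for `c ∈ G` and `univ` for `c ∉ G`; `Fintype.card (Fin D → ZMod p) = p ^ D`). -/
theorem agree_card {p M D d : ℕ} [NeZero p] (ev : (Fin d → ZMod p) →+ (Fin D → ZMod p))
    (x : Fin M → Fin D → ZMod p) (g : ℕ) :
    (Finset.univ.filter fun b : Fin M → Fin D → ZMod p =>
      g ≤ (Finset.univ.filter fun c => ∃ u, ∀ i, b c i - ev u i = x c i).card).card ≤
      M.choose g * (p ^ (d * g) * p ^ (D * (M - g))) := by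
  classical
  obtain ⟨I, hI⟩ : ∃ I : Fin M → Finset (Fin D → ZMod p), I = fun c =>
      Finset.univ.image fun u : Fin d → ZMod p => fun i => ev u i + x c i := ⟨_, rfl⟩
  have hIc : ∀ c, (I c).card ≤ p ^ d := by
    intro c
    rw [hI]
    refine Finset.card_image_le.trans ?_
    rw [Finset.card_univ, Fintype.card_fun, ZMod.card, Fintype.card_fin]
  have hsub : (Finset.univ.filter fun b : Fin M → Fin D → ZMod p =>
      g ≤ (Finset.univ.filter fun c => ∃ u, ∀ i, b c i - ev u i = x c i).card) ⊆
      (Finset.powersetCard g (Finset.univ : Finset (Fin M))).biUnion fun G =>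
        Fintype.piFinset fun c => if c ∈ G then I c else Finset.univ := by
    intro b hb
    rw [Finset.mem_filter] at hb
    obtain ⟨G, hG1, hG2⟩ := Finset.exists_subset_card_eq hb.2
    rw [Finset.mem_biUnion]
    refine ⟨G, Finset.mem_powersetCard.2 ⟨Finset.subset_univ _, hG2⟩, ?_⟩
    rw [Fintype.mem_piFinset]
    intro c
    by_cases hc : c ∈ G
    · rw [if_pos hc, hI]
      obtain ⟨u, hu⟩ := (Finset.mem_filter.1 (hG1 hc)).2
      refine Finset.mem_image.2 ⟨u, Finset.mem_univ _, ?_⟩
      funext i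
      rw [← hu i]
      ring
    · rw [if_neg hc]
      exact Finset.mem_univ _
  have hcard : ∀ G ∈ Finset.powersetCard g (Finset.univ : Finset (Fin M)),
      (Fintype.piFinset fun c => if c ∈ G then I c else
        Finset.univ).card ≤ p ^ (d * g) * p ^ (D * (M - g)) := by
    intro G hG
    rw [Finset.mem_powersetCard] at hG
    rw [Fintype.card_piFinset]
    have h1 : ∀ c : Fin M, (if c ∈ G then I c else Finset.univ).card ≤
        if c ∈ G then p ^ d else p ^ D := by
      intro c
      by_cases hc : c ∈ G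
      · rw [if_pos hc, if_pos hc]
        exact hIc c
      · rw [if_neg hc, if_neg hc, Finset.card_univ, Fintype.card_fun, ZMod.card, Fintype.card_fin]
    refine (Finset.prod_le_prod' fun c _ => h1 c).trans (le_of_eq ?_)
    have h2 : (Finset.univ.filter fun c : Fin M => c ∉ G) = Gᶜ := by
      ext c
      simp
    have h3 : (Finset.univ.filter fun c : Fin M => c ∈ G) = G := by
      ext c
      simp
    rw [Finset.prod_ite, Finset.prod_const, Finset.prod_const, h2, h3, Finset.card_compl,
      Fintype.card_fin, hG.2, ← pow_mul, ← pow_mul]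
  refine (Finset.card_le_card hsub).trans (Finset.card_biUnion_le.trans ?_)
  refine (Finset.sum_le_sum hcard).trans (le_of_eq ?_)
  rw [Finset.sum_const, Finset.card_powersetCard, Finset.card_univ,
    Fintype.card_fin, smul_eq_mul]

/-- **Module Far (2).**  If `3 M ≤ g p ^ (e - 1)` and `D N < g`, some offset vector `b` is solved by
each assignment at less than `g` places.

PROOF.  Otherwise all `p ^ (D M)` vectors `b` are covered by the sets of (1) for the
`x c i = κ i (v c i)`, `κ : Fin D → Fin N → ZMod p` (`p ^ (D N)` functions):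
`p ^ (D M) ≤ p ^ (D N) * C(M, g) * p ^ (d g) * p ^ (D (M - g))`.  With `g ≤ M`, `D = d + e`
(cancel `p ^ (D (M - g)) * p ^ (d g)`): `p ^ (e g) ≤ p ^ (D N) * C(M, g)`.
`choose_pow_le`: `C(M, g) * g ^ g ≤ (3 M) ^ g ≤ (g p ^ (e - 1)) ^ g`, so
`C(M, g) ≤ p ^ ((e - 1) g)`, and `p ^ (e g) ≤ p ^ (D N + (e - 1) g)`, so `e g ≤ D N + (e - 1) g`
(`1 < p`), i.e. `g ≤ D N`: contradiction. -/
theorem exists_far {p M N D d e g : ℕ} [NeZero p] (hp1 : 1 < p) (hD : D = d + e) (he : 1 ≤ e)
    (hg1 : 1 ≤ g) (hgM : g ≤ M) (hp : 3 * M ≤ g * p ^ (e - 1)) (hN : D * N < g)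
    (ev : (Fin d → ZMod p) →+ (Fin D → ZMod p)) (v : Fin M → Fin D → Fin N) :
    ∃ b : Fin M → Fin D → ZMod p, ∀ κ : Fin D → Fin N → ZMod p,
      (Finset.univ.filter fun c => ∃ u, ∀ i, b c i - ev u i = κ i (v c i)).card < g := by
  classical
  by_contra hcon
  push Not at hcon
  -- the vectors are covered
  have hcov : (Finset.univ : Finset (Fin M → Fin D → ZMod p)) ⊆
      (Finset.univ : Finset (Fin D → Fin N → ZMod p)).biUnion fun κ =>
        Finset.univ.filter fun b : Fin M → Fin D → ZMod p =>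
          g ≤ (Finset.univ.filter fun c => ∃ u, ∀ i, b c i - ev u i = κ i (v c i)).card := by
    intro b _
    obtain ⟨κ, hκ⟩ := hcon b
    rw [Finset.mem_biUnion]
    exact ⟨κ, Finset.mem_univ _, Finset.mem_filter.2 ⟨Finset.mem_univ _, hκ⟩⟩
  have h1 := (Finset.card_le_card hcov).trans Finset.card_biUnion_le
  have h2 := h1.trans (Finset.sum_le_sum fun κ _ => agree_card ev (fun c i => κ i (v c i)) g)
  rw [Finset.sum_const, Finset.card_univ, Finset.card_univ, smul_eq_mul, Fintype.card_fun,
    Fintype.card_fun, Fintype.card_fun, Fintype.card_fun, ZMod.card, Fintype.card_fin,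
    Fintype.card_fin, Fintype.card_fin, ← pow_mul, ← pow_mul] at h2
  have hpp : 0 < p := by omega
  have h3 : p ^ (D * (M - g)) * p ^ (d * g) * p ^ (e * g) ≤
      p ^ (D * (M - g)) * p ^ (d * g) * (p ^ (D * N) * M.choose g) := by
    calc p ^ (D * (M - g)) * p ^ (d * g) * p ^ (e * g) = p ^ (D * M) := by
          rw [← pow_add, ← pow_add]
          congr 1
          obtain ⟨r, rfl⟩ := Nat.exists_eq_add_of_le hgM
          rw [Nat.add_sub_cancel_left, hD]
          ring
      _ ≤ p ^ (N * D) * (M.choose g * (p ^ (d * g) * p ^ (D * (M - g)))) := h2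
      _ = p ^ (D * (M - g)) * p ^ (d * g) * (p ^ (D * N) * M.choose g) := by
          rw [mul_comm D N]
          ring
  have h4 : p ^ (e * g) ≤ p ^ (D * N) * M.choose g :=
    Nat.le_of_mul_le_mul_left h3 (Nat.mul_pos (pow_pos hpp _) (pow_pos hpp _))
  have h5 : M.choose g ≤ p ^ ((e - 1) * g) := by
    have h6 := (choose_pow_le M g).trans (Nat.pow_le_pow_left hp g)
    rw [mul_pow, ← pow_mul, mul_comm (g ^ g)] at h6
    exact Nat.le_of_mul_le_mul_right h6 (pow_pos (by omega) _)
  have h6 : p ^ (e * g) ≤ p ^ (D * N + (e - 1) * g) := by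
    rw [pow_add]
    exact h4.trans (Nat.mul_le_mul_left _ h5)
  have h9 := (Nat.pow_le_pow_iff_right hp1).1 h6
  obtain ⟨e', rfl⟩ := Nat.exists_eq_add_of_le he
  rw [Nat.add_sub_cancel_left, add_mul, one_mul] at h9
  omega

end Pool.Agent.SymGap
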