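import Mathlib

/-!
# Project SG, module Grp1: subgroups of a power of a group, one-sided count
-/

namespace Pool.Agent.SymGap

private def Grp1_incl (A : Type) [Group A] (j : ℕ) : (Fin j → A) →* (Fin (j + 1) → A) where
  toFun x := Fin.snoc (α := fun _ => A) x 1
  map_one' := by
    funext i
    refine Fin.lastCases ?_ (fun i => ?_) i
    · simp
    · simp
  map_mul' x y := by
    funext i
    refine Fin.lastCases ?_ (fun i => ?_) i
    · simp
    · simp

private theorem Grp1_range (A : Type) [Group A] (j : ℕ) :
    (Grp1_incl A j).range = (Pi.evalMonoidHom (fun _ : Fin (j + 1) => A) (Fin.last j)).ker := by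
  ext y
  rw [MonoidHom.mem_range, MonoidHom.mem_ker]
  constructor
  · rintro ⟨x, rfl⟩
    change Fin.snoc (α := fun _ => A) x 1 (Fin.last j) = 1
    rw [Fin.snoc_last]
  · intro h
    refine ⟨fun i => y i.castSucc, ?_⟩
    funext i
    change Fin.snoc (α := fun _ => A) (fun i => y i.castSucc) 1 i = y i
    refine Fin.lastCases ?_ (fun i => ?_) i
    · rw [Fin.snoc_last]
      exact h.symm
    · rw [Fin.snoc_castSucc]

private theorem Grp1_index {A : Type} [Group A] [Finite A] {j : ℕ}
    (H : Subgroup (Fin (j + 1) → A)) :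
    (H.comap (Grp1_incl A j)).index *
      (H.map (Pi.evalMonoidHom (fun _ : Fin (j + 1) => A) (Fin.last j))).index = H.index := by
  obtain ⟨f, hf⟩ : ∃ f : (Fin (j + 1) → A) →* A, f = Pi.evalMonoidHom _ (Fin.last j) :=
    ⟨_, rfl⟩
  have hsurj : Function.Surjective f := by
    intro a
    refine ⟨fun _ => a, ?_⟩
    rw [hf]
    rfl
  have h1 := Subgroup.relIndex_mul_index (inf_le_left : H ⊓ f.ker ≤ H)
  have h2 := Subgroup.relIndex_mul_index (inf_le_right : H ⊓ f.ker ≤ f.ker)
  rw [Subgroup.inf_relIndex_left, Subgroup.relIndex_ker] at h1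
  rw [Subgroup.inf_relIndex_right, Subgroup.index_ker, MonoidHom.range_eq_top.2 hsurj,
    Subgroup.card_top] at h2
  have h3 : (H.comap (Grp1_incl A j)).index = H.relIndex f.ker := by
    rw [Subgroup.index_comap, Grp1_range, hf]
  have h4 := Subgroup.card_mul_index (H.map f)
  rw [h3, ← hf]
  have h5 : 0 < Nat.card (H.map f) := Nat.card_pos
  refine Nat.eq_of_mul_eq_mul_left h5 ?_
  rw [h1, ← h2, ← h4]
  ring

/-- **Module Grp1.**  `A` is a finite group all of whose proper subgroups have index `≥ m`, `H` a
subgroup of `A ^ j`; `i` is bad if some `a` is not the `i`-th coordinate of an element of `H` whose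
later coordinates are all `1`.  Then `m ^ (number of bad i) ≤ index of H`.

PROOF by induction on `j` (for all `H`, `bad`).  `j = 0`: `bad` is empty, and the index of `H` is
positive (`Subgroup.index_ne_zero_of_finite`, everything is finite).  Step `j + 1`: let
`P = H.map (Pi.evalMonoidHom _ (Fin.last j))` and
`H' = H.comap (incl)`, where `incl : (Fin j → A) →* (Fin (j + 1) → A)`, `x ↦ Fin.snoc x 1`.
Then `Nat.card H = Nat.card P * Nat.card H'`: the homomorphism `H → A`, `x ↦ x (last)`, has range
`P` and its kernel (the `x ∈ H` with `x (last) = 1`) is in bijection with `H'`; use the first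
isomorphism theorem, e.g. `Subgroup.card_mul_index`/`Subgroup.index_ker` for the hom
`(Pi.evalMonoidHom ..).comp H.subtype : H →* A`: `card (ker) * card (range) = card H`.
With `Nat.card (Fin (j + 1) → A) = Nat.card A ^ (j + 1)` and `Subgroup.card_mul_index` for `H`, `P`,
`H'` (all cards positive) we get `H.index = P.index * H'.index`.
Let `bad' = {i : Fin j | castSucc i ∈ bad}` (a filter of univ), so
`bad.card ≤ bad'.card + (if last ∈ bad then 1 else 0)`.
(1) `bad'` is bad for `H'`: if `castSucc i ∈ bad` with witness `a`, `x ∈ H'`, `x i = a`, then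
`snoc x 1 ∈ H` has `i`-th coordinate `a`, so `(snoc x 1) l ≠ 1` for some `l > castSucc i`;
`l ≠ last` since the last coordinate is `1`; so `l = castSucc l'`, `x l' ≠ 1`, `i < l'`.
(2) If `last ∈ bad` with witness `a`, then `a ∉ P` (an `x ∈ H` with `x last = a` would need an
`l > last`), so `P ≠ ⊤` and `m ≤ P.index`; otherwise `1 ≤ P.index`.
Hence `m ^ bad.card ≤ P.index * H'.index`.  (If `m = 0`: the claim is trivial or the same
computation works, `m ^ a ≤` ... note `bad.card = bad'.card + 1` or `= bad'.card` exactly.) -/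
theorem one_sided {A : Type} [Group A] [Finite A] {m : ℕ}
    (hm : ∀ K : Subgroup A, K ≠ ⊤ → m ≤ K.index) (j : ℕ) (H : Subgroup (Fin j → A))
    (bad : Finset (Fin j))
    (hbad : ∀ i ∈ bad, ∃ a : A, ∀ x ∈ H, x i = a → ∃ l, i < l ∧ x l ≠ 1) :
    m ^ bad.card ≤ H.index := by
  classical
  induction j with
  | zero =>
    have h1 : bad = ∅ := by
      ext i
      exact i.elim0
    rw [h1, Finset.card_empty, pow_zero]
    exact Nat.one_le_iff_ne_zero.2 Subgroup.FiniteIndex.index_ne_zero
  | succ j ih =>
    obtain ⟨P, hP⟩ : ∃ P : Subgroup A,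
        P = H.map (Pi.evalMonoidHom (fun _ : Fin (j + 1) => A) (Fin.last j)) := ⟨_, rfl⟩
    have hidx := Grp1_index H
    rw [← hP] at hidx
    have hcard : bad.card = (Finset.univ.filter (fun i : Fin j => i.castSucc ∈ bad)).card +
        (if Fin.last j ∈ bad then 1 else 0) := by
      have h1 : bad.card = ∑ i : Fin (j + 1), if i ∈ bad then 1 else 0 := by
        rw [← Finset.card_filter]
        congr 1
        ext i
        simp
      rw [h1, Fin.sum_univ_castSucc, Finset.card_filter]
    have hih := ih (H.comap (Grp1_incl A j))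
      (Finset.univ.filter (fun i : Fin j => i.castSucc ∈ bad)) (by
        intro i hi
        obtain ⟨a, ha⟩ := hbad i.castSucc (Finset.mem_filter.1 hi).2
        refine ⟨a, fun x hx hxa => ?_⟩
        have hx' : Fin.snoc (α := fun _ => A) x 1 ∈ H := hx
        obtain ⟨l, hl, hl1⟩ := ha _ hx' (by rw [Fin.snoc_castSucc]; exact hxa)
        rcases Fin.eq_castSucc_or_eq_last l with ⟨l', rfl⟩ | rfl
        · rw [Fin.snoc_castSucc] at hl1
          exact ⟨l', Fin.castSucc_lt_castSucc_iff.1 hl, hl1⟩
        · rw [Fin.snoc_last] at hl1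
          exact absurd rfl hl1)
    have hPi : m ^ (if Fin.last j ∈ bad then 1 else 0) ≤ P.index := by
      by_cases hl : Fin.last j ∈ bad
      · rw [if_pos hl, pow_one]
        refine hm P fun htop => ?_
        obtain ⟨a, ha⟩ := hbad _ hl
        have haP : a ∈ P := by
          rw [htop]
          exact Subgroup.mem_top a
        rw [hP, Subgroup.mem_map] at haP
        obtain ⟨x, hx, hxa⟩ := haP
        obtain ⟨l, hl', -⟩ := ha x hx hxa
        exact absurd hl' (not_lt.2 (Fin.le_last l))
      · rw [if_neg hl, pow_zero]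
        exact Nat.one_le_iff_ne_zero.2 Subgroup.FiniteIndex.index_ne_zero
    rw [hcard, pow_add, ← hidx]
    exact Nat.mul_le_mul hih hPi

end Pool.Agent.SymGap
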