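import Pool.Agent.Lib.MP_0a1b52_lc_SG.Grp1

/-!
# Project SG, module Grp2: the support of a subgroup of small index
-/

namespace Pool.Agent.SymGap

/-- **Module Grp2.**  `A` finite and perfect, all proper subgroups of index `≥ m`: a subgroup of
`A ^ j` of index less than `m ^ r` contains all elements which are trivial on some set `B` of at most
`2 r` coordinates.

PROOF.  `bad1 = {i | ∃ a, ∀ x ∈ H, x i = a → ∃ l, i < l ∧ x l ≠ 1}` (filter of univ, classical).
By `one_sided`: `m ^ bad1.card ≤ H.index < m ^ r`, so `bad1.card < r`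
(`Nat.pow_lt_pow_iff_right` with `1 < m`, or `lt_of_pow_lt_pow_right₀`).
`bad2 = {i | ∃ a, ∀ x ∈ H, x i = a → ∃ l, l < i ∧ x l ≠ 1}`: apply `one_sided` to the image of `H`
under the automorphism `x ↦ x ∘ Fin.rev` of `Fin j → A` (as `MulEquiv`, e.g.
`MulEquiv.piCongrLeft`-like or built by hand; `H.comap` of the hom `x ↦ x ∘ Fin.rev`; it is
bijective so the index is the same: `Subgroup.index_comap_of_surjective`) and to `bad2.map rev`
(or `bad2.image Fin.rev`): `bad2.card < r`.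
`B = bad1 ∪ bad2`, `B.card ≤ 2 r`.
Let `i ∉ B` and `a b : A`.  Not bad: there is `x ∈ H` with `x i = a` and `x l = 1` for all `l > i`,
and `y ∈ H` with `y i = b` and `y l = 1` for all `l < i`.  Then `⁅x, y⁆ = x y x⁻¹ y⁻¹ ∈ H` and
`⁅x, y⁆ = Pi.mulSingle i ⁅a, b⁆` (coordinates `l < i`: `y l = 1`; `l > i`: `x l = 1`).
So the subgroup `H.comap (MonoidHom.mulSingle (fun _ => A) i)` of `A` contains all commutators, hence
`commutator A = ⊤` (`commutator_def`, `Subgroup.commutator_le`), i.e. everything: for all `a`,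
`Pi.mulSingle i a ∈ H`.
Let `τ` be trivial on `B`.  Then `Pi.mulSingle i (τ i) ∈ H` for all `i` (for `i ∈ B` it is `1`:
`Pi.mulSingle_one`), so `τ ∈ H` by `Subgroup.pi_mem_of_mulSingle_mem`. -/
theorem support {A : Type} [Group A] [Finite A] {m r : ℕ} (h1 : 1 < m)
    (hm : ∀ K : Subgroup A, K ≠ ⊤ → m ≤ K.index) (hperf : commutator A = ⊤) (j : ℕ)
    (H : Subgroup (Fin j → A)) (hH : H.index < m ^ r) :
    ∃ B : Finset (Fin j), B.card ≤ 2 * r ∧ ∀ τ : Fin j → A, (∀ i ∈ B, τ i = 1) → τ ∈ H := by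
  classical
  obtain ⟨bad1, hbad1⟩ : ∃ b : Finset (Fin j), ∀ i, i ∈ b ↔
      ∃ a : A, ∀ x ∈ H, x i = a → ∃ l, i < l ∧ x l ≠ 1 :=
    ⟨Finset.univ.filter fun i => ∃ a : A, ∀ x ∈ H, x i = a → ∃ l, i < l ∧ x l ≠ 1, by simp⟩
  obtain ⟨bad2, hbad2⟩ : ∃ b : Finset (Fin j), ∀ i, i ∈ b ↔
      ∃ a : A, ∀ x ∈ H, x i = a → ∃ l, l < i ∧ x l ≠ 1 :=
    ⟨Finset.univ.filter fun i => ∃ a : A, ∀ x ∈ H, x i = a → ∃ l, l < i ∧ x l ≠ 1, by simp⟩
  have hc1 : bad1.card < r := by
    have h := one_sided hm j H bad1 fun i hi => (hbad1 i).1 hi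
    exact (Nat.pow_lt_pow_iff_right h1).1 (h.trans_lt hH)
  have hc2 : bad2.card < r := by
    let ρ : (Fin j → A) →* (Fin j → A) :=
      { toFun := fun x i => x (Fin.rev i)
        map_one' := rfl
        map_mul' := fun _ _ => rfl }
    have hρ : Function.Surjective ρ := by
      intro y
      refine ⟨fun i => y (Fin.rev i), ?_⟩
      funext i
      change y (Fin.rev (Fin.rev i)) = y i
      rw [Fin.rev_rev]
    have h := one_sided hm j (H.comap ρ) (bad2.image Fin.rev) (by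
      intro i hi
      obtain ⟨i', hi', rfl⟩ := Finset.mem_image.1 hi
      obtain ⟨a, ha⟩ := (hbad2 i').1 hi'
      refine ⟨a, fun x hx hxi => ?_⟩
      obtain ⟨l, hl, hl1⟩ := ha (ρ x) hx hxi
      exact ⟨Fin.rev l, Fin.rev_lt_rev.2 hl, hl1⟩)
    rw [Subgroup.index_comap_of_surjective H hρ,
      Finset.card_image_of_injective _ Fin.rev_injective] at h
    exact (Nat.pow_lt_pow_iff_right h1).1 (h.trans_lt hH)
  have hsingle : ∀ i, i ∉ bad1 → i ∉ bad2 → ∀ a : A, Pi.mulSingle i a ∈ H := by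
    intro i hi1 hi2
    have hx : ∀ a : A, ∃ x ∈ H, x i = a ∧ ∀ l, i < l → x l = 1 := by
      intro a
      by_contra hcon
      apply hi1
      rw [hbad1]
      refine ⟨a, fun x hx hxi => ?_⟩
      by_contra hno
      apply hcon
      refine ⟨x, hx, hxi, fun l hl => ?_⟩
      by_contra hxl
      exact hno ⟨l, hl, hxl⟩
    have hy : ∀ a : A, ∃ x ∈ H, x i = a ∧ ∀ l, l < i → x l = 1 := by
      intro a
      by_contra hcon
      apply hi2
      rw [hbad2]
      refine ⟨a, fun x hx hxi => ?_⟩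
      by_contra hno
      apply hcon
      refine ⟨x, hx, hxi, fun l hl => ?_⟩
      by_contra hxl
      exact hno ⟨l, hl, hxl⟩
    have htop : (H.comap (MonoidHom.mulSingle (fun _ : Fin j => A) i)) = ⊤ := by
      rw [eq_top_iff, ← hperf, commutator_def, Subgroup.commutator_le]
      intro a _ b _
      obtain ⟨x, hxH, hxi, hxl⟩ := hx a
      obtain ⟨y, hyH, hyi, hyl⟩ := hy b
      have h2 : x * y * x⁻¹ * y⁻¹ ∈ H :=
        H.mul_mem (H.mul_mem (H.mul_mem hxH hyH) (H.inv_mem hxH)) (H.inv_mem hyH)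
      have h3 : x * y * x⁻¹ * y⁻¹ = Pi.mulSingle i (a * b * a⁻¹ * b⁻¹) := by
        funext l
        change x l * y l * (x l)⁻¹ * (y l)⁻¹ = _
        rcases lt_trichotomy l i with hl | hl | hl
        · rw [hyl l hl, Pi.mulSingle_eq_of_ne hl.ne]
          simp
        · subst hl
          rw [hxi, hyi, Pi.mulSingle_eq_same]
        · rw [hxl l hl, Pi.mulSingle_eq_of_ne hl.ne']
          simp
      rw [h3] at h2
      exact h2
    intro a
    have h4 : a ∈ H.comap (MonoidHom.mulSingle (fun _ : Fin j => A) i) := by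
      rw [htop]
      exact Subgroup.mem_top a
    exact h4
  refine ⟨bad1 ∪ bad2, ?_, fun τ hτ => ?_⟩
  · have := Finset.card_union_le bad1 bad2
    omega
  · refine Subgroup.pi_mem_of_mulSingle_mem τ fun i => ?_
    by_cases hi : i ∈ bad1 ∪ bad2
    · rw [hτ i hi, Pi.mulSingle_one]
      exact H.one_mem
    · rw [Finset.mem_union, not_or] at hi
      exact hsingle i hi.1 hi.2 (τ i)

end Pool.Agent.SymGap
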