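import Pool.Agent.Lib.MP_0a1b52_lc_SG.Act

/-!
# Project SG, module Inst: the moves between the instances
-/

namespace Pool.Agent.SymGap

variable {p d D M N j m n : ℕ}

/-- **Module Inst (1).**  Adding the values of an assignment `κ` to the offsets does not change the
graph: if `v c i = v c' i`, the same number is added on both sides of
`ev u i + a c i = ev u' i + a c' i`.  (`SimpleGraph.ext`, `funext`, `propext`.) -/
theorem inst_gauge (P : Place p d M j m n) (v : Fin M → Fin D → Fin N)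
    (ev : (Fin d → ZMod p) →+ (Fin D → ZMod p)) (a : Fin M → Fin D → ZMod p)
    (κ : Fin D → Fin N → ZMod p) :
    P.inst v ev (fun c i => a c i + κ i (v c i)) = P.inst v ev a := by
  ext x y
  show (_ ∧ _ ∧ _ ∧ _) ↔ (_ ∧ _ ∧ _ ∧ _)
  refine and_congr Iff.rfl (and_congr Iff.rfl (and_congr Iff.rfl ?_))
  constructor
  · intro h c u c' u' hx hy
    obtain ⟨h1, h2⟩ := h c u c' u' hx hy
    refine ⟨h1, fun i hi => ?_⟩
    have h3 := h2 i hi
    simp only [hi, ← add_assoc] at h3
    exact add_right_cancel h3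
  · intro h c u c' u' hx hy
    obtain ⟨h1, h2⟩ := h c u c' u' hx hy
    refine ⟨h1, fun i hi => ?_⟩
    simp only [hi, ← add_assoc]
    rw [h2 i hi]

/-- **Module Inst (2).**  Let `τ` translate the local solutions of each constraint `c` by `w c` and
be trivial on the other blocks.  Then `τ` maps the instance with offsets `a` to the one with
offsets `a - ev w`.  (Adapt `inst_move` in `MP_0a1b52_lc_SYM/Inst.lean`.)

PROOF.  Let `π = (perm P.β τ)⁻¹`.  `π x = vx c u` iff `x = vx c (u + w c)`, and `π x ∈ U` iff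
`x ∈ U` (see the finished proof for the old version).  So adjacency of `x`, `y` in the left-hand side
is adjacency of `π x`, `π y` in `P.inst v ev a`, whose last condition says: if `x = vx c u`,
`y = vx c' u'`, then `c ≠ c'` and for all `i` with `v c i = v c' i`:
`ev (u - w c) i + a c i = ev (u' - w c') i + a c' i`, i.e. (`map_sub`)
`ev u i + (a c i - ev (w c) i) = ev u' i + (a c' i - ev (w c') i)`. -/
theorem inst_move (P : Place p d M j m n) (v : Fin M → Fin D → Fin N)
    (ev : (Fin d → ZMod p) →+ (Fin D → ZMod p))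
    (tr : Multiplicative (Fin d → ZMod p) →* alternatingGroup (Fin m))
    (htr : ∀ u x, (tr (Multiplicative.ofAdd u) : Equiv.Perm (Fin m)) (P.pos x) = P.pos (x + u))
    (htr' : ∀ u, ∀ y ∉ Set.range P.pos, (tr u : Equiv.Perm (Fin m)) y = y)
    (w : Fin M → Fin d → ZMod p) (τ : Fin j → alternatingGroup (Fin m))
    (hτ : ∀ c, τ (P.e c) = tr (Multiplicative.ofAdd (w c)))
    (hτ' : ∀ i ∉ Set.range P.e, τ i = 1) (a : Fin M → Fin D → ZMod p) :
    act P.β τ (P.inst v ev a) = P.inst v ev fun c i => a c i - ev (w c) i := by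
  have hmv : ∀ c u, perm P.β τ (P.vx c u) = P.vx c (u + w c) := by
    intro c u
    unfold Place.vx
    rw [perm_block, hτ, htr]
  have hU : ∀ x ∈ P.U, perm P.β τ x = x := by
    intro x hx
    by_cases hr : x ∈ Set.range P.β
    · obtain ⟨⟨i, y⟩, rfl⟩ := hr
      rw [perm_block]
      by_cases hi : i ∈ Set.range P.e
      · obtain ⟨c, rfl⟩ := hi
        have hy : y ∉ Set.range P.pos := by
          rintro ⟨u, rfl⟩
          exact P.hU c u hx
        rw [hτ, htr' _ y hy]
      · rw [hτ' i hi]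
        rfl
    · exact perm_out P.β τ x hr
  have hinv : ∀ x y, (perm P.β τ)⁻¹ x = y ↔ x = perm P.β τ y :=
    fun x y => Equiv.Perm.inv_eq_iff_eq
  have hU' : ∀ x, (perm P.β τ)⁻¹ x ∈ P.U ↔ x ∈ P.U := by
    intro x
    constructor
    · intro h
      have h1 := hU _ h
      have h2 : perm P.β τ ((perm P.β τ)⁻¹ x) = x := (perm P.β τ).apply_symm_apply x
      rw [h2] at h1
      rw [h1]
      exact h
    · intro h
      have h1 : (perm P.β τ)⁻¹ x = x := (hinv x x).2 (hU x h).symm
      rw [h1]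
      exact h
  have hA : ∀ c u x, (perm P.β τ)⁻¹ x = P.vx c u ↔ x = P.vx c (u + w c) := by
    intro c u x
    rw [hinv, hmv]
  have hPart : ∀ x, P.Part ((perm P.β τ)⁻¹ x) ↔ P.Part x := by
    intro x
    unfold Place.Part
    rw [hU' x]
    constructor
    · rintro (h | ⟨c, u, h⟩)
      · exact Or.inl h
      · exact Or.inr ⟨c, _, (hA c u x).1 h⟩
    · rintro (h | ⟨c, u, h⟩)
      · exact Or.inl h
      · refine Or.inr ⟨c, u - w c, (hA c _ x).2 ?_⟩
        rw [sub_add_cancel]
        exact h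
  have hev : ∀ c u i, ev (u + w c) i + (a c i - ev (w c) i) = ev u i + a c i := by
    intro c u i
    rw [map_add, Pi.add_apply]
    ring
  ext x y
  rw [act_adj]
  show (_ ∧ _ ∧ _ ∧ _) ↔ (_ ∧ _ ∧ _ ∧ _)
  rw [hPart x, hPart y, (Equiv.injective _).ne_iff]
  refine and_congr Iff.rfl (and_congr Iff.rfl (and_congr Iff.rfl ?_))
  constructor
  · intro h c u c' u' hx hy
    obtain ⟨h1, h2⟩ := h c (u - w c) c' (u' - w c') ((hA _ _ _).2 (by rwa [sub_add_cancel]))
      ((hA _ _ _).2 (by rwa [sub_add_cancel]))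
    refine ⟨h1, fun i hi => ?_⟩
    have h3 := hev c (u - w c) i
    have h4 := hev c' (u' - w c') i
    rw [sub_add_cancel] at h3 h4
    rw [h3, h4, h2 i hi]
  · intro h c u c' u' hx hy
    obtain ⟨h1, h2⟩ := h c (u + w c) c' (u' + w c') ((hA _ _ _).1 hx) ((hA _ _ _).1 hy)
    refine ⟨h1, fun i hi => ?_⟩
    have h3 := h2 i hi
    rw [hev, hev] at h3
    exact h3

/-- **Module Inst (3).**  Whether `x`, `y` are adjacent in an image of the instance depends only on
the offsets of the constraints in the blocks of `x` and `y`.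
(Adapt `edge_blocks` in `MP_0a1b52_lc_SYM/Inst.lean`.) -/
theorem edge_blocks (P : Place p d M j m n) (x y : Fin n) :
    ∃ B0 : Finset (Fin j), B0.card ≤ 2 ∧
    ∀ (v : Fin M → Fin D → Fin N) (ev : (Fin d → ZMod p) →+ (Fin D → ZMod p))
      (a a' : Fin M → Fin D → ZMod p), (∀ c, P.e c ∈ B0 → a c = a' c) →
      ∀ σ, ((act P.β σ (P.inst v ev a)).Adj x y ↔ (act P.β σ (P.inst v ev a')).Adj x y) := by
  classical
  obtain ⟨Bx, hBx⟩ : ∃ Bx : Fin n → Finset (Fin j), ∀ x,
      Bx x = Finset.univ.filter fun i => ∃ b, x = P.β (i, b) := ⟨_, fun _ => rfl⟩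
  have hc : ∀ x, (Bx x).card ≤ 1 := by
    intro x
    rw [Finset.card_le_one, hBx]
    intro i hi i' hi'
    simp only [Finset.mem_filter, Finset.mem_univ, true_and] at hi hi'
    obtain ⟨b, hb⟩ := hi
    obtain ⟨b', hb'⟩ := hi'
    have h1 := P.β.injective (hb.symm.trans hb')
    exact congrArg Prod.fst h1
  refine ⟨Bx x ∪ Bx y, (Finset.card_union_le _ _).trans (by have := hc x; have := hc y; omega), ?_⟩
  intro v ev a a' haa σ
  have hm : ∀ z c u, (perm P.β σ)⁻¹ z = P.vx c u → P.e c ∈ Bx z := by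
    intro z c u h
    obtain ⟨b, hb⟩ := mem_block_of_perm_inv P.β σ z (P.e c) (P.pos u) h
    rw [hBx]
    simp only [Finset.mem_filter, Finset.mem_univ, true_and]
    exact ⟨b, hb⟩
  rw [act_adj, act_adj]
  show (_ ∧ _ ∧ _ ∧ _) ↔ (_ ∧ _ ∧ _ ∧ _)
  refine and_congr Iff.rfl (and_congr Iff.rfl (and_congr Iff.rfl ?_))
  constructor
  · intro h c u c' u' hx hy
    rw [← haa c (Finset.mem_union_left _ (hm x c u hx)),
      ← haa c' (Finset.mem_union_right _ (hm y c' u' hy))]
    exact h c u c' u' hx hy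
  · intro h c u c' u' hx hy
    rw [haa c (Finset.mem_union_left _ (hm x c u hx)),
      haa c' (Finset.mem_union_right _ (hm y c' u' hy))]
    exact h c u c' u' hx hy

end Pool.Agent.SymGap
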