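import Pool.Agent.Lib.MP_0a1b52_lc_SG.Defs2

/-!
# Project SG, module Loc: local solutions and their extension
-/

namespace Pool.Agent.SymGap

variable {M N D d p e : ℕ}

/-- a boundary variable of `S` which belongs to `c ∈ R ⊆ S` is a boundary variable of `R` -/
private theorem Loc_bdry (v : Fin M → Fin D → Fin N) {R S : Finset (Fin M)} (hR : R ⊆ S)
    {c : Fin M} (hc : c ∈ R) {x : Fin D × Fin N} (hcx : v c x.1 = x.2) (hx : x ∈ bdry v S) :
    x ∈ bdry v R := by
  obtain ⟨a, ha⟩ := Finset.card_eq_one.1 (Finset.mem_filter.1 hx).2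
  have huniq : ∀ y ∈ S, v y x.1 = x.2 → y = a := by
    intro y hy hyx
    have h1 : y ∈ S.filter fun c => v c x.1 = x.2 := Finset.mem_filter.2 ⟨hy, hyx⟩
    rw [ha] at h1
    exact Finset.mem_singleton.1 h1
  refine Finset.mem_filter.2 ⟨Finset.mem_univ _, Finset.card_eq_one.2 ⟨c, ?_⟩⟩
  refine Finset.eq_singleton_iff_unique_mem.2 ⟨Finset.mem_filter.2 ⟨hc, hcx⟩, fun y hy => ?_⟩
  obtain ⟨h1, h2⟩ := Finset.mem_filter.1 hy
  rw [huniq y (hR h1) h2, huniq c (hR hc) hcx]

private theorem Loc_uniq (v : Fin M → Fin D → Fin N) {S : Finset (Fin M)} {x : Fin D × Fin N}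
    (hx : x ∈ bdry v S) {c c' : Fin M} (hc : c ∈ S) (hc' : c' ∈ S) (h : v c x.1 = x.2)
    (h' : v c' x.1 = x.2) : c = c' := by
  obtain ⟨a, ha⟩ := Finset.card_eq_one.1 (Finset.mem_filter.1 hx).2
  have huniq : ∀ y ∈ S, v y x.1 = x.2 → y = a := by
    intro y hy hyx
    have h1 : y ∈ S.filter fun c => v c x.1 = x.2 := Finset.mem_filter.2 ⟨hy, hyx⟩
    rw [ha] at h1
    exact Finset.mem_singleton.1 h1
  rw [huniq c hc h, huniq c' hc' h']

private theorem Loc_vars_mono (v : Fin M → Fin D → Fin N) {B B' : Finset (Fin M)} (h : B ⊆ B') :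
    vars v B ⊆ vars v B' := by
  intro x hx
  obtain ⟨c, hc, hx2⟩ := (Finset.mem_filter.1 hx).2
  exact Finset.mem_filter.2 ⟨Finset.mem_univ _, c, h hc, hx2⟩

private theorem Loc_mem_vars (v : Fin M → Fin D → Fin N) {B : Finset (Fin M)} {c : Fin M}
    (hc : c ∈ B) (i : Fin D) : (i, v c i) ∈ vars v B :=
  Finset.mem_filter.2 ⟨Finset.mem_univ _, c, hc, rfl⟩

private theorem Loc_empty (v : Fin M → Fin D → Fin N) : vars v (∅ : Finset (Fin M)) = ∅ := by
  refine Finset.eq_empty_of_forall_notMem fun x hx => ?_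
  obtain ⟨c, hc, -⟩ := (Finset.mem_filter.1 hx).2
  exact Finset.notMem_empty c hc

/-- **Module Loc (1).**  `vars v B` is the image of `Fin D × B` under `(i, c) ↦ (i, v c i)`.
(Compare `vars_card` in the finished file `MP_0a1b52_lc_SYM/Loc.lean`.) -/
theorem vars_card (v : Fin M → Fin D → Fin N) (B : Finset (Fin M)) :
    (vars v B).card ≤ D * B.card := by
  classical
  have h1 : vars v B ⊆ ((Finset.univ : Finset (Fin D)) ×ˢ B).image
      (fun ic => (ic.1, v ic.2 ic.1)) := by
    intro x hx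
    obtain ⟨c, hc, hx2⟩ := (Finset.mem_filter.1 hx).2
    refine Finset.mem_image.2 ⟨(x.1, c), Finset.mem_product.2 ⟨Finset.mem_univ _, hc⟩, ?_⟩
    exact Prod.ext rfl hx2
  refine (Finset.card_le_card h1).trans (Finset.card_image_le.trans ?_)
  rw [Finset.card_product, Finset.card_univ, Fintype.card_fin]

/-- **Module Loc (2).**  Let `c ∈ S` (the case `c ∈ S'` is the same).  If `(i, v c i)` is a boundary
variable of `S ∪ S'`, then it is one of `S`: the filter of the `c' ∈ S` with `v c' i = v c i` is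
contained in the one for `S ∪ S'`, which has one element, and it contains `c`.  So the filter in the
definition of `Stuck` for `S ∪ S'` and `c` is contained in the one for `S` and `c`. -/
theorem stuck_union (v : Fin M → Fin D → Fin N) {B S S' : Finset (Fin M)}
    (h : Stuck v e B S) (h' : Stuck v e B S') : Stuck v e B (S ∪ S') := by
  have key : ∀ R : Finset (Fin M), R ⊆ S ∪ S' → Stuck v e B R → ∀ c ∈ R,
      (Finset.univ.filter fun i : Fin D => (i, v c i) ∈ bdry v (S ∪ S') ∧
        (i, v c i) ∉ vars v B).card < e := by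
    intro R hR hs c hc
    refine lt_of_le_of_lt (Finset.card_le_card ?_) (hs c hc)
    intro i hi
    obtain ⟨h1, h2⟩ := (Finset.mem_filter.1 hi).2
    exact Finset.mem_filter.2 ⟨Finset.mem_univ _, Loc_bdry v hR hc rfl h1, h2⟩
  intro c hc
  rcases Finset.mem_union.1 hc with h1 | h1
  · exact key S Finset.subset_union_left h c h1
  · exact key S' Finset.subset_union_right h' c h1

/-- **Module Loc (3).**  The elements of `bdry v S \ vars v B` are the `(i, v c i)` with `c ∈ S`,
`i` in the filter of the definition of `Stuck`; so there are at most `∑ c ∈ S, (e - 1)` of them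
(`Finset.card_biUnion_le`).  Hence `e * S.card ≤ (bdry v S).card ≤ (e - 1) * S.card +
(vars v B).card`. -/
theorem stuck_card (v : Fin M → Fin D → Fin N) (he : 1 ≤ e) {B S : Finset (Fin M)}
    (h : Stuck v e B S) (hS : e * S.card ≤ (bdry v S).card) : S.card ≤ (vars v B).card := by
  classical
  have h1 : bdry v S ⊆ (S.biUnion fun c => (Finset.univ.filter fun i : Fin D =>
      (i, v c i) ∈ bdry v S ∧ (i, v c i) ∉ vars v B).image fun i => (i, v c i)) ∪ vars v B := by
    intro x hx
    by_cases hxB : x ∈ vars v B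
    · exact Finset.mem_union_right _ hxB
    · refine Finset.mem_union_left _ (Finset.mem_biUnion.2 ?_)
      obtain ⟨c, hc⟩ := Finset.card_eq_one.1 (Finset.mem_filter.1 hx).2
      have hc1 : c ∈ S.filter fun c => v c x.1 = x.2 := by
        rw [hc]
        exact Finset.mem_singleton_self c
      obtain ⟨hcS, hcx⟩ := Finset.mem_filter.1 hc1
      have hx' : (x.1, v c x.1) = x := Prod.ext rfl hcx
      refine ⟨c, hcS, Finset.mem_image.2 ⟨x.1, Finset.mem_filter.2 ⟨Finset.mem_univ _, ?_, ?_⟩,
        hx'⟩⟩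
      · rw [hx']
        exact hx
      · rw [hx']
        exact hxB
  have h2 := (Finset.card_le_card h1).trans (Finset.card_union_le _ _)
  have h3 : (S.biUnion fun c => (Finset.univ.filter fun i : Fin D =>
      (i, v c i) ∈ bdry v S ∧ (i, v c i) ∉ vars v B).image fun i => (i, v c i)).card ≤
      S.card * (e - 1) := by
    refine Finset.card_biUnion_le_card_mul _ _ _ fun c hc => ?_
    have h4 := h c hc
    refine Finset.card_image_le.trans ?_
    omega
  obtain ⟨e', rfl⟩ : ∃ e', e = e' + 1 := ⟨e - 1, by omega⟩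
  rw [Nat.add_sub_cancel] at h3
  have h5 : (e' + 1) * S.card = S.card * e' + S.card := by ring
  omega

/-- **Module Loc (4).**  The family of the stuck sets `S` with at most `s1` elements has a largest
element.

PROOF.  `∅` is in the family.  It is closed under unions: `S ∪ S'` is stuck by (2) and
`(S ∪ S').card ≤ 2 s1`, so by expansion, (3) and (1): `(S ∪ S').card ≤ (vars v B).card ≤
D * B.card ≤ s1`.  So the union of the whole family (`(Finset.univ.filter ..).sup id`,
`Finset.sup_induction`) is in it.  (Compare `exists_closure` in `MP_0a1b52_lc_SYM/Loc.lean`.) -/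
theorem exists_closure (v : Fin M → Fin D → Fin N) (he : 1 ≤ e) {s1 : ℕ}
    (hv : Expands v e (2 * s1)) (B : Finset (Fin M)) (hB : D * B.card ≤ s1) :
    ∃ S0 : Finset (Fin M), S0.card ≤ s1 ∧
      ∀ S : Finset (Fin M), S.card ≤ s1 → Stuck v e B S → S ⊆ S0 := by
  classical
  have hU : ∀ S, (S.card ≤ s1 ∧ Stuck v e B S) → ∀ S', (S'.card ≤ s1 ∧ Stuck v e B S') →
      ((S ⊔ S').card ≤ s1 ∧ Stuck v e B (S ⊔ S')) := by
    rintro S ⟨h1, h2⟩ S' ⟨h3, h4⟩
    rw [Finset.sup_eq_union]
    have h5 : Stuck v e B (S ∪ S') := stuck_union v h2 h4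
    have h6 : (S ∪ S').card ≤ 2 * s1 := by
      have := Finset.card_union_le S S'
      omega
    have h7 := stuck_card v he h5 (hv _ h6)
    have h9 := vars_card v B
    exact ⟨by omega, h5⟩
  have h0 : (⊥ : Finset (Fin M)).card ≤ s1 ∧ Stuck v e B (⊥ : Finset (Fin M)) := by
    rw [Finset.bot_eq_empty]
    exact ⟨by simp, fun c hc => absurd hc (Finset.notMem_empty c)⟩
  refine ⟨((Finset.univ : Finset (Finset (Fin M))).filter
    fun S => S.card ≤ s1 ∧ Stuck v e B S).sup id, ?_, ?_⟩
  · exact (Finset.sup_induction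
      (p := fun S : Finset (Fin M) => S.card ≤ s1 ∧ Stuck v e B S) h0 hU
      (fun S hS => (Finset.mem_filter.1 hS).2)).1
  · intro S h1 h2
    exact Finset.le_sup (f := id) (Finset.mem_filter.2 ⟨Finset.mem_univ S, h1, h2⟩)

/-- **Module Loc (5).**  A local solution near `B` can be modified outside of `vars v B` to become a
solution on any given set `S` of at most `s1` constraints.

PROOF by induction on `S` (strong induction on the card).  If `S` is stuck, take `κ' = x.2` and
`u = x.1 c` (definition of `locSol`).  Otherwise there is `c ∈ S` such that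
`J0 = {i | (i, v c i) ∈ bdry v S ∧ (i, v c i) ∉ vars v B}` has at least `e` elements; its
complement `J` has at most `D - e = d` elements.  Induction for `S.erase c` gives `κ''`.  By `MDS`
there is `u` with `ev u i = b c i - κ'' i (v c i)` for all `i ∈ J`.  Let
`κ' i y = if i ∈ J0 ∧ y = v c i then b c i - ev u i else κ'' i y`.  Then
`b c i - ev u i = κ' i (v c i)` for all `i`.  For `c' ∈ S.erase c` and `i ∈ J0`: `v c' i ≠ v c i`,
since `(i, v c i)` is a variable of exactly one element of `S`; so `κ'` and `κ''` agree on the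
variables of `c'`.  And for `y ∈ vars v B`, `y` is not one of the `(i, v c i)`, `i ∈ J0`, so
`κ'` and `κ''` agree at `y`. -/
theorem ext0 (v : Fin M → Fin D → Fin N) (ev : (Fin d → ZMod p) →+ (Fin D → ZMod p))
    (hev : MDS ev) (hD : D = d + e) (b : Fin M → Fin D → ZMod p) {s1 : ℕ} {B : Finset (Fin M)}
    {x : (Fin M → Fin d → ZMod p) × (Fin D → Fin N → ZMod p)} (hx : x ∈ locSol v ev b e s1 B)
    (S : Finset (Fin M)) (hS : S.card ≤ s1) :
    ∃ κ' : Fin D → Fin N → ZMod p, (∀ y ∈ vars v B, κ' y.1 y.2 = x.2 y.1 y.2) ∧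
      ∀ c ∈ S, ∃ u, ∀ i, b c i - ev u i = κ' i (v c i) := by
  classical
  induction S using Finset.strongInduction with
  | H S ih =>
    by_cases hb : Stuck v e B S
    · exact ⟨x.2, fun _ _ => rfl, fun c hc => ⟨x.1 c, hx S hS hb c hc⟩⟩
    · unfold Stuck at hb
      push Not at hb
      obtain ⟨c, hcS, hcard⟩ := hb
      obtain ⟨J0, hJ0⟩ : ∃ J0 : Finset (Fin D), J0 = Finset.univ.filter fun i : Fin D =>
        (i, v c i) ∈ bdry v S ∧ (i, v c i) ∉ vars v B := ⟨_, rfl⟩
      rw [← hJ0] at hcard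
      have hmem : ∀ i, i ∈ J0 ↔ (i, v c i) ∈ bdry v S ∧ (i, v c i) ∉ vars v B := by
        intro i
        rw [hJ0, Finset.mem_filter]
        exact ⟨fun h => h.2, fun h => ⟨Finset.mem_univ _, h⟩⟩
      obtain ⟨κ'', h1, h2⟩ := ih (S.erase c) (Finset.erase_ssubset hcS)
        ((Finset.card_le_card (Finset.erase_subset c S)).trans hS)
      have hJc : (J0ᶜ).card ≤ d := by
        rw [Finset.card_compl, Fintype.card_fin]
        omega
      obtain ⟨u, hu⟩ := hev J0ᶜ hJc fun i => b c i - κ'' i (v c i)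
      refine ⟨fun i y => if i ∈ J0 ∧ y = v c i then b c i - ev u i else κ'' i y, ?_, ?_⟩
      · intro y hy
        have hny : ¬ (y.1 ∈ J0 ∧ y.2 = v c y.1) := by
          rintro ⟨h3, h4⟩
          apply ((hmem _).1 h3).2
          rw [← h4]
          exact hy
        change (if y.1 ∈ J0 ∧ y.2 = v c y.1 then _ else _) = _
        rw [if_neg hny]
        exact h1 y hy
      · intro c' hc'
        by_cases hcc : c' = c
        · subst hcc
          refine ⟨u, fun i => ?_⟩
          change b c' i - ev u i = (if i ∈ J0 ∧ v c' i = v c' i then b c' i - ev u i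
            else κ'' i (v c' i))
          by_cases hi : i ∈ J0
          · rw [if_pos ⟨hi, rfl⟩]
          · rw [if_neg fun h => hi h.1, hu i (Finset.mem_compl.2 hi)]
            ring
        · obtain ⟨u', hu'⟩ := h2 c' (Finset.mem_erase.2 ⟨hcc, hc'⟩)
          refine ⟨u', fun i => ?_⟩
          have hni : ¬ (i ∈ J0 ∧ v c' i = v c i) := by
            rintro ⟨h3, h4⟩
            exact hcc (Loc_uniq v ((hmem i).1 h3).1 hc' hcS h4 rfl)
          change b c' i - ev u' i = (if i ∈ J0 ∧ v c' i = v c i then b c i - ev u i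
            else κ'' i (v c' i))
          rw [if_neg hni]
          exact hu' i

/-- **Module Loc (6).**  `vars` is monotone, so `Stuck v e B S` implies `Stuck v e B' S`, and
`locSol`
is antitone. -/
theorem locSol_mono (v : Fin M → Fin D → Fin N) (ev : (Fin d → ZMod p) →+ (Fin D → ZMod p))
    (b : Fin M → Fin D → ZMod p) {s1 : ℕ} {B B' : Finset (Fin M)} (h : B ⊆ B') :
    locSol v ev b e s1 B' ⊆ locSol v ev b e s1 B := by
  intro x hx S hS hb
  refine hx S hS fun c hc => lt_of_le_of_lt (Finset.card_le_card ?_) (hb c hc)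
  intro i hi
  obtain ⟨h1, h2⟩ := (Finset.mem_filter.1 hi).2
  exact Finset.mem_filter.2 ⟨Finset.mem_univ _, h1, fun h3 => h2 (Loc_vars_mono v h h3)⟩

/-- **Module Loc (7).**  For `c ∈ B` the set `{c}` is stuck (all its variables are in `vars v B`, so
the filter is empty and `0 < e`). -/
theorem locSol_eq (v : Fin M → Fin D → Fin N) (ev : (Fin d → ZMod p) →+ (Fin D → ZMod p))
    (b : Fin M → Fin D → ZMod p) (he : 1 ≤ e) {s1 : ℕ} (hs1 : 1 ≤ s1) {B : Finset (Fin M)}
    {x : (Fin M → Fin d → ZMod p) × (Fin D → Fin N → ZMod p)} (hx : x ∈ locSol v ev b e s1 B)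
    {c : Fin M} (hc : c ∈ B) (i : Fin D) : b c i - ev (x.1 c) i = x.2 i (v c i) := by
  refine hx {c} (by rw [Finset.card_singleton]; exact hs1) (fun a ha => ?_) c
    (Finset.mem_singleton_self c) i
  have hac : a = c := Finset.mem_singleton.1 ha
  have h1 : (Finset.univ.filter fun i : Fin D => (i, v a i) ∈ bdry v {c} ∧
      (i, v a i) ∉ vars v B) = ∅ := by
    refine Finset.filter_eq_empty_iff.2 fun j _ h2 => ?_
    rw [hac] at h2
    exact h2.2 (Loc_mem_vars v hc j)
  rw [h1, Finset.card_empty]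
  omega

/-- **Module Loc (8).**

PROOF.  `S0` from (4) for `B'`, `κ'` from (5) for `S0`, with `u c` for `c ∈ S0` (`choose`).  Let
`x'.2 = κ'` and `x'.1 c = x.1 c` for `c ∈ B`, `= u c` for `c ∈ S0 \ B`, `= 0` otherwise.  Let `S` be
a stuck set for `B'` with at most `s1` elements, `c ∈ S`; then `c ∈ S0`.  If `c ∉ B`, the equation
holds by the choice of `u c`.  If `c ∈ B`, then by (7) (`s1 ≥ 1` because `D ≥ 1` and `B'` is not
empty) `b c i - ev (x.1 c) i = x.2 i (v c i)`, and this is `κ' i (v c i)`, since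
`(i, v c i) ∈ vars v B`. -/
theorem locSol_ext (v : Fin M → Fin D → Fin N) (ev : (Fin d → ZMod p) →+ (Fin D → ZMod p))
    (hev : MDS ev) (hD : D = d + e) (he : 1 ≤ e) (b : Fin M → Fin D → ZMod p) {s1 : ℕ}
    (hv : Expands v e (2 * s1)) {B B' : Finset (Fin M)} (hBB : B ⊆ B') (hB' : D * B'.card ≤ s1)
    {x : (Fin M → Fin d → ZMod p) × (Fin D → Fin N → ZMod p)}
    (hx : x ∈ locSol v ev b e s1 B) :
    ∃ x' ∈ locSol v ev b e s1 B', ∀ c ∈ B, x'.1 c = x.1 c := by
  classical
  obtain ⟨S0, hS0, hmax⟩ := exists_closure v he hv B' hB'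
  obtain ⟨κ', h1, h2⟩ := ext0 v ev hev hD b hx S0 hS0
  choose! u hu using h2
  refine ⟨(fun c => if c ∈ B then x.1 c else u c, κ'), ?_, ?_⟩
  · intro S hS hb c hc i
    have hcS0 := hmax S hS hb hc
    by_cases hcB : c ∈ B
    · have hs1 : 1 ≤ s1 := by
        have h3 : 1 ≤ B'.card := Finset.card_pos.2 ⟨c, hBB hcB⟩
        have h4 : 1 * 1 ≤ D * B'.card := Nat.mul_le_mul (by omega) h3
        omega
      have h3 := locSol_eq v ev b he hs1 hx hcB i
      have h4 := h1 (i, v c i) (Loc_mem_vars v hcB i)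
      change b c i - ev (if c ∈ B then x.1 c else u c) i = κ' i (v c i)
      rw [if_pos hcB, h3]
      exact h4.symm
    · change b c i - ev (if c ∈ B then x.1 c else u c) i = κ' i (v c i)
      rw [if_neg hcB]
      exact hu c hcS0 i
  · intro c hc
    exact if_pos hc

/-- **Module Loc (9).**  `vars v ∅ = ∅`, so a stuck set for `∅` with at most `s1` elements is empty
by (3). -/
theorem mem_locSol_empty (v : Fin M → Fin D → Fin N)
    (ev : (Fin d → ZMod p) →+ (Fin D → ZMod p)) (b : Fin M → Fin D → ZMod p) (he : 1 ≤ e)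
    {s1 : ℕ} (hv : Expands v e (2 * s1))
    (x : (Fin M → Fin d → ZMod p) × (Fin D → Fin N → ZMod p)) : x ∈ locSol v ev b e s1 ∅ := by
  intro S hS hb c hc
  exfalso
  have h1 := stuck_card v he hb (hv S (by omega))
  rw [Loc_empty, Finset.card_empty] at h1
  have h3 := Finset.card_pos.2 ⟨c, hc⟩
  omega

end Pool.Agent.SymGap
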