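import Pool.Agent.Lib.MP_0a1b52_lc_SG.Defs2

/-!
# Project SG, module Mds: Reed-Solomon codes
-/

namespace Pool.Agent.SymGap

/-- **Module Mds.**  The evaluation of the polynomials of degree less than `d` at `D ≤ p` points.

PROOF.  `ev w i = ∑ k : Fin d, w k * ((i : ℕ) : ZMod p) ^ (k : ℕ)` (an `AddMonoidHom`).  The nodes
`((i : ℕ) : ZMod p)`, `i : Fin D`, are different (`i < D ≤ p`, `ZMod.natCast_eq_natCast_iff'` or
`Nat.cast` injective below `p`).  Let `J.card ≤ d` and `y` be given.  The polynomial
`f = Lagrange.interpolate J (fun i => ((i : ℕ) : ZMod p)) y` has degree `< J.card ≤ d`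
(`Lagrange.degree_interpolate_lt`) and takes the value `y i` at the node of `i ∈ J`
(`Lagrange.eval_interpolate_at_node`).  Put `w k = f.coeff k`; then `ev w i = f.eval (node i)`
(`Polynomial.eval_eq_sum_range'` with `f.natDegree < d`, `Fin.sum_univ_eq_sum_range`; the case
`f = 0`, in particular `d = 0`, is trivial: for `d = 0`, `J = ∅`). -/
theorem exists_mds (p d D : ℕ) [Fact p.Prime] (hD : D ≤ p) :
    ∃ ev : (Fin d → ZMod p) →+ (Fin D → ZMod p), MDS ev := by
  classical
  refine ⟨{ toFun := fun w i => ∑ k : Fin d, w k * ((i : ℕ) : ZMod p) ^ (k : ℕ)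
            map_zero' := by
              funext i
              simp
            map_add' := by
              intro a b
              funext i
              simp [add_mul, Finset.sum_add_distrib] }, ?_⟩
  intro J hJ y
  have hinj : Set.InjOn (fun i : Fin D => ((i : ℕ) : ZMod p)) J := by
    intro a _ b _ hab
    have h1 := (ZMod.natCast_eq_natCast_iff' a b p).mp hab
    rw [Nat.mod_eq_of_lt (by omega), Nat.mod_eq_of_lt (by omega)] at h1
    exact Fin.ext h1
  obtain ⟨f, hf⟩ : ∃ f, f = Lagrange.interpolate J (fun i : Fin D => ((i : ℕ) : ZMod p)) y :=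
    ⟨_, rfl⟩
  refine ⟨fun k => f.coeff k, fun i hi => ?_⟩
  show ∑ k : Fin d, f.coeff k * ((i : ℕ) : ZMod p) ^ (k : ℕ) = y i
  have hJ0 : 0 < J.card := Finset.card_pos.mpr ⟨i, hi⟩
  have h2 : f.degree < J.card := by
    rw [hf]
    exact Lagrange.degree_interpolate_lt y hinj
  have h3 : f.eval ((i : ℕ) : ZMod p) = y i := by
    rw [hf]
    exact Lagrange.eval_interpolate_at_node y hinj hi
  have h4 : f.natDegree < d := by
    rcases eq_or_ne f 0 with h5 | h5
    · rw [h5, Polynomial.natDegree_zero]
      omega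
    · have h6 : f.natDegree < J.card := (Polynomial.natDegree_lt_iff_degree_lt h5).mpr h2
      omega
  rw [Fin.sum_univ_eq_sum_range (fun k => f.coeff k * ((i : ℕ) : ZMod p) ^ k) d, ← h3,
    Polynomial.eval_eq_sum_range' h4]

end Pool.Agent.SymGap
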