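import Pool.Agent.Lib.MP_0a1b52_lc_SG.Defs2

/-!
# Project SG, module Plc: existence of the geometry of the instance
-/

namespace Pool.Agent.SymGap

/-- **Module Plc.**  (Adapt `exists_place` in `MP_0a1b52_lc_SYM/Plc.lean`:
`Fintype.card (Fin d → ZMod p) = p ^ d` instead of `p ^ 2`.) -/
theorem exists_place {p d M j m n : ℕ} [NeZero p] (hm : 2 * p ^ d ≤ m) (hM : M ≤ j)
    (hn : 16 ≤ n) (β : Fin j × Fin m ↪ Fin n) :
    ∃ P : Place p d M j m n, P.β = β ∧ P.U.card = Nat.sqrt n + 1 - M := by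
  have hcard : Fintype.card (Fin d → ZMod p) = p ^ d := by
    rw [Fintype.card_fun, ZMod.card, Fintype.card_fin]
  have hpm : Fintype.card (Fin d → ZMod p) ≤ Fintype.card (Fin m) := by
    rw [hcard, Fintype.card_fin]
    omega
  obtain ⟨pos⟩ := Function.Embedding.nonempty_of_card_le hpm
  have hjm : j * m ≤ n := by
    have := Fintype.card_le_of_embedding β
    simpa using this
  obtain ⟨R, hR⟩ : ∃ R : Finset (Fin n),
      R = (Finset.univ : Finset (Fin M × (Fin d → ZMod p))).image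
        fun x => β (Fin.castLEEmb hM x.1, pos x.2) := ⟨_, rfl⟩
  have hRc : R.card ≤ M * p ^ d := by
    rw [hR]
    refine Finset.card_image_le.trans ?_
    rw [Finset.card_univ, Fintype.card_prod, hcard, Fintype.card_fin]
  have hR2 : 2 * R.card ≤ n := by
    calc 2 * R.card ≤ 2 * (M * p ^ d) := Nat.mul_le_mul_left 2 hRc
      _ = M * (2 * p ^ d) := by ring
      _ ≤ j * m := Nat.mul_le_mul hM hm
      _ ≤ n := hjm
  have hs4 : 4 ≤ Nat.sqrt n := by
    rw [Nat.le_sqrt]
    omega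
  have hss : Nat.sqrt n * Nat.sqrt n ≤ n := Nat.sqrt_le n
  have hs : 2 * (Nat.sqrt n + 1) ≤ n := by nlinarith
  have hcompl : Rᶜ.card = n - R.card := by
    rw [Finset.card_compl, Fintype.card_fin]
  have hle : Nat.sqrt n + 1 - M ≤ Rᶜ.card := by
    rw [hcompl]
    omega
  obtain ⟨U, hU, hUc⟩ := Finset.exists_subset_card_eq hle
  refine ⟨{ β := β, e := Fin.castLEEmb hM, pos := pos, U := U, hU := ?_ }, rfl, hUc⟩
  intro c u hmem
  have h1 := Finset.mem_compl.mp (hU hmem)
  apply h1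
  rw [hR]
  exact Finset.mem_image.mpr ⟨(c, u), Finset.mem_univ _, rfl⟩

end Pool.Agent.SymGap
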