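import Mathlib

/-!
# Project SG, module Orb: the number of images of a function
-/

namespace Pool.Agent.SymGap

/-- The group `Γ` (finite) acts on `Ω`, `f : Ω → V`: the index of the stabilizer
of `f` is the number of images of `f`. -/
theorem index_eq {Γ Ω V : Type} [Group Γ] [Finite Γ] (a : Γ → Ω → Ω) (h1 : ∀ ω, a 1 ω = ω)
    (hmul : ∀ σ τ ω, a (σ * τ) ω = a σ (a τ ω)) (f : Ω → V) :
    ∃ H : Subgroup Γ, (∀ σ, σ ∈ H ↔ ∀ ω, f (a σ ω) = f ω) ∧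
      H.index = Set.ncard {h : Ω → V | ∃ σ, h = fun ω => f (a σ ω)} := by
  have hinv : ∀ σ ω, a σ⁻¹ (a σ ω) = ω := fun σ ω => by
    rw [← hmul, inv_mul_cancel, h1]
  have hinv' : ∀ σ ω, a σ (a σ⁻¹ ω) = ω := fun σ ω => by
    rw [← hmul, mul_inv_cancel, h1]
  obtain ⟨H, hH⟩ : ∃ H : Subgroup Γ, ∀ σ, σ ∈ H ↔ ∀ ω, f (a σ ω) = f ω := by
    refine ⟨Subgroup.mk (Submonoid.mk (Subsemigroup.mk {σ | ∀ ω, f (a σ ω) = f ω} ?_) ?_) ?_,
      fun σ => Iff.rfl⟩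
    · intro σ τ hσ hτ ω
      rw [hmul]
      exact (hσ _).trans (hτ ω)
    · intro ω
      rw [h1]
    · intro σ hσ ω
      have h2 := hσ (a σ⁻¹ ω)
      rw [hinv'] at h2
      exact h2.symm
  refine ⟨H, hH, ?_⟩
  have key : ∀ σ τ : Γ, (fun ω => f (a σ⁻¹ ω)) = (fun ω => f (a τ⁻¹ ω)) ↔ σ⁻¹ * τ ∈ H := by
    intro σ τ
    rw [hH]
    constructor
    · intro h ω
      have h2 := congrFun h (a τ ω)
      simp only [hinv] at h2
      rw [hmul, h2]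
    · intro h
      funext ω
      have h2 := h (a τ⁻¹ ω)
      rw [hmul, hinv'] at h2
      exact h2
  rw [Subgroup.index_eq_card, ← Nat.card_coe_set_eq]
  refine Nat.card_eq_of_bijective (fun x : Γ ⧸ H => Quotient.liftOn' x
    (fun σ : Γ => (⟨fun ω => f (a σ⁻¹ ω), σ⁻¹, rfl⟩ :
      {h : Ω → V | ∃ σ, h = fun ω => f (a σ ω)})) ?_) ⟨?_, ?_⟩
  · intro σ τ hst
    rw [QuotientGroup.leftRel_apply] at hst
    exact Subtype.ext ((key σ τ).2 hst)
  · intro x y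
    refine Quotient.inductionOn₂' x y fun σ τ h => ?_
    simp only [Quotient.liftOn'_mk''] at h
    exact QuotientGroup.eq.2 ((key σ τ).1 (Subtype.ext_iff.1 h))
  · rintro ⟨h, σ, rfl⟩
    refine ⟨Quotient.mk'' σ⁻¹, ?_⟩
    simp only [Quotient.liftOn'_mk'', inv_inv]

end Pool.Agent.SymGap
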