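import Pool.Agent.Lib.MP_0a1b52_lc_SG.Grp2
import Pool.Agent.Lib.MP_0a1b52_lc_SG.Alt
import Pool.Agent.Lib.MP_0a1b52_lc_SG.Orb
import Pool.Agent.Lib.MP_0a1b52_lc_SG.Act

/-!
# Project SG, module Supp: functions with few images have a small support
-/

namespace Pool.Agent.SymGap

theorem exists_support {j m n r : ℕ} (hm : 5 ≤ m) (β : Fin j × Fin m ↪ Fin n)
    (f : SimpleGraph (Fin n) → ℝ) (hf : (images β f).ncard < m ^ r) :
    ∃ B : Finset (Fin j), B.card ≤ 2 * r ∧ Inv (act β) f B := by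
  obtain ⟨H, hH, hidx⟩ := index_eq (Γ := Fin j → alternatingGroup (Fin m)) (act β)
    (fun G => act_one β G) (fun σ τ G => act_mul β σ τ G) f
  have h1 : H.index < m ^ r := by
    rw [hidx]
    exact hf
  obtain ⟨B, hB, hB'⟩ := support (m := m) (r := r) (by omega) (fun K hK => alt_index hm K hK)
    (alt_perfect hm) j H h1
  exact ⟨B, hB, fun τ hτ => (hH τ).1 (hB' τ hτ)⟩

end Pool.Agent.SymGap
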