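import Pool.Agent.Lib.MP_0a1b52_lc_SG.MkSys
import Pool.Agent.Lib.MP_0a1b52_lc_SG.Supp
import Pool.Agent.Lib.MP_0a1b52_lc_SG.Plc
import Pool.Agent.Lib.MP_0a1b52_lc_SG.Clq
import Pool.Agent.Lib.MP_0a1b52_lc_SG.ExpD
import Pool.Agent.Lib.MP_0a1b52_lc_SG.Far
import Pool.Agent.Lib.MP_0a1b52_lc_SG.Mds
import Pool.Agent.Lib.MP_0a1b52_lc_SG.AllGates

/-!
# Project SG, module Main: assembly
-/

namespace Pool.Agent.SymGap

/-- **Module Main (1).**  The theorem for given parameters.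
(Adapt `main_given` in `MP_0a1b52_lc_SYM/Main.lean`.)

PROOF.  `M = j`.  `b` from `exists_far`, `P` from `exists_place`, `S` from `exists_sys` with
`s1 = 6 * D * (r * t)`.  `G₁ = P.inst v ev 0`, `G₀ = P.inst v ev b`.
Clique of `G₁`: `clique_sat`, card `j + (Nat.sqrt n + 1 - j) = Nat.sqrt n + 1`
(`j ≤ Nat.sqrt n` by `j ^ 2 ≤ n`, `Nat.le_sqrt'`).
Cliques of `G₀`: `clique_unsat`: `K.card < g + (Nat.sqrt n + 1 - j)`.
Circuits: `exists_support`: each `gateFun i` is invariant off a set of card `≤ k = 2 r`.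
`S.k' = 6 r t`, so `k + 2 ≤ k'`, `2 k ≤ k'`, `(t + 1) k ≤ k'`.  `all_claims`, then `claim_count`
for `D'.out` with `κ0 = 0`. -/
theorem main_given {t r m j n p d D e g N ℓ : ℕ} (ht : 1 ≤ t) (hr : 1 ≤ r)
    [NeZero p] (hp1 : 1 < p) (hp : Odd p) (hpl : p.Coprime ℓ) (hD : D = d + e) (he : 1 ≤ e)
    (hg2 : 2 ≤ g) (hgj : g ≤ j) (hpg : 3 * j ≤ g * p ^ (e - 1)) (hN : D * N < g)
    (hpm : 2 * p ^ d ≤ m) (hm5 : 5 ≤ m) (hjn : j ^ 2 ≤ n) (hn : 16 ≤ n)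
    (ev : (Fin d → ZMod p) →+ (Fin D → ZMod p)) (hev : MDS ev)
    (v : Fin j → Fin D → Fin N) (hv : Expands v e (2 * (6 * D * (r * t))))
    (β : Fin j × Fin m ↪ Fin n) :
    ∃ G₁ G₀ : SimpleGraph (Fin n),
      (∃ K : Finset (Fin n), G₁.IsClique (K : Set (Fin n)) ∧ K.card = Nat.sqrt n + 1) ∧
      (∀ K : Finset (Fin n), G₀.IsClique (K : Set (Fin n)) → K.card + j ≤ g + Nat.sqrt n) ∧
      ∀ (s : ℕ) (D' : Circuit n s t ℓ), (∀ i, (images β (D'.gateFun i)).ncard < m ^ r) →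
        ∀ y : ℝ, {σ | D'.gateFun D'.out (act β σ G₁) = y}.ncard =
          {σ | D'.gateFun D'.out (act β σ G₀) = y}.ncard := by
  obtain ⟨b, hb⟩ := exists_far (p := p) (M := j) (N := N) (D := D) (d := d) (e := e) (g := g) hp1
    hD he (by omega) hgj hpg hN ev v
  obtain ⟨P, hPβ, hPU⟩ := exists_place (d := d) hpm (le_refl j) hn β
  have hrt : 1 ≤ r * t := Nat.mul_pos hr ht
  have hD1 : 0 < D := by omega
  have hs1 : 1 ≤ 6 * D * (r * t) := Nat.mul_pos (by omega) hrt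
  obtain ⟨S, hSa, hS0, hSz, hK0, hk', hedge⟩ := exists_sys hp hpl P v ev hev hD he b hs1 hv
  have hjs : j ≤ Nat.sqrt n := Nat.le_sqrt'.2 hjn
  refine ⟨P.inst v ev fun _ _ => 0, P.inst v ev b, ?_, ?_, ?_⟩
  · obtain ⟨K, hK, hKc⟩ := clique_sat P v ev
    exact ⟨K, hK, by rw [hKc, hPU]; omega⟩
  · intro K hK
    have h1 := clique_unsat P v ev b (g := g) hg2 hb K hK
    rw [hPU] at h1
    omega
  · intro s D' hD' y
    have hsup : ∀ i, ∃ B : Finset (Fin j), B.card ≤ 2 * r ∧ Inv S.a (D'.gateFun i) B := by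
      intro i
      rw [hSa, hPβ]
      exact exists_support hm5 β _ (hD' i)
    have hk2 : S.k' = 6 * (r * t) := by
      rw [hk']
      have h1 : 6 * D * (r * t) = D * (6 * (r * t)) := by ring
      rw [h1, Nat.mul_div_cancel_left _ hD1]
    have hrt2 : r ≤ r * t := Nat.le_mul_of_pos_right r ht
    have hall := all_claims S D' (k := 2 * r) (by rw [hk2]; omega) (by rw [hk2]; omega)
      (by
        rw [hk2]
        have h1 : (t + 1) * (2 * r) = 2 * (r * t) + 2 * r := by ring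
        omega) hsup hedge
    have hfin := claim_count S (k := 2 * r) (by rw [hk2]; omega) (hall D'.out) hK0 y
    rw [hS0, hSz, hSa, hPβ] at hfin
    exact hfin

/-- **Module Main (2).**  The parameter `p`.

PROOF.  Let `x` be the least natural number with `12 q ≤ x ^ (d * h)` (`Nat.find`; `x = 12 q` works);
`x ≥ 2`, so `(x - 1) ^ (d h) < 12 q` and `x ^ (d h) ≤ (2 (x - 1)) ^ (d h) ≤ 2 ^ (d h) * 12 q`.
Let `y = x * (D + ℓ + 3)`.  By Bertrand's postulate (`Nat.exists_prime_lt_and_le_two_mul y`) there is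
a prime `p` with `y < p ≤ 2 y`.  Then `D ≤ p`, `p` is odd (`p > 2`), `p` is prime to `ℓ` (`ℓ < p`,
`1 ≤ ℓ`), `12 q ≤ x ^ (d h) ≤ p ^ (d h)`, and `(2 p ^ d) ^ h = 2 ^ h p ^ (d h) ≤
2 ^ h (2 (D + ℓ + 3)) ^ (d h) x ^ (d h) ≤ C q` with
`C = 2 ^ h * (2 (D + ℓ + 3)) ^ (d h) * 2 ^ (d h) * 12`.  From `(2 p ^ d) ^ h ≤ C q ≤ m ^ h` we get
`2 p ^ d ≤ m` (`h ≥ 1`; `Nat.pow_le_pow_iff_left` or `lt_of_pow_lt_pow_left₀`). -/
theorem exists_p (d D h ℓ : ℕ) (hd : 1 ≤ d) (hh : 1 ≤ h) (hl : 1 ≤ ℓ) :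
    ∃ C : ℕ, ∀ q m : ℕ, 1 ≤ q → C * q ≤ m ^ h →
      ∃ p : ℕ, p.Prime ∧ 3 ≤ p ∧ Odd p ∧ D ≤ p ∧ p.Coprime ℓ ∧ 12 * q ≤ p ^ (d * h) ∧
        2 * p ^ d ≤ m := by
  have hdh : d * h ≠ 0 := Nat.mul_ne_zero (by omega) (by omega)
  refine ⟨2 ^ h * (2 * (D + ℓ + 3)) ^ (d * h) * 2 ^ (d * h) * 12, ?_⟩
  intro q m hq hm
  have hex : ∃ x : ℕ, 12 * q ≤ x ^ (d * h) := ⟨12 * q, Nat.le_self_pow hdh _⟩
  obtain ⟨x, hx1, hx2⟩ : ∃ x : ℕ, 12 * q ≤ x ^ (d * h) ∧ ∀ y < x, ¬ 12 * q ≤ y ^ (d * h) := by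
    classical
    exact ⟨Nat.find hex, Nat.find_spec hex, fun y hy => Nat.find_min hex hy⟩
  have hx : 2 ≤ x := by
    by_contra hlt
    have h1 : x = 0 ∨ x = 1 := by omega
    rcases h1 with h1 | h1
    · rw [h1, zero_pow hdh] at hx1
      omega
    · rw [h1, one_pow] at hx1
      omega
  have hx3 : x ^ (d * h) ≤ 2 ^ (d * h) * (12 * q) := by
    have h1 := hx2 (x - 1) (by omega)
    calc x ^ (d * h) ≤ (2 * (x - 1)) ^ (d * h) := Nat.pow_le_pow_left (by omega) _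
      _ = 2 ^ (d * h) * (x - 1) ^ (d * h) := mul_pow _ _ _
      _ ≤ 2 ^ (d * h) * (12 * q) := Nat.mul_le_mul_left _ (by omega)
  have hy0 : x * (D + ℓ + 3) ≠ 0 := Nat.mul_ne_zero (by omega) (by omega)
  obtain ⟨p, hp, hp1, hp2⟩ := Nat.exists_prime_lt_and_le_two_mul _ hy0
  have hy1 : D + ℓ + 3 ≤ x * (D + ℓ + 3) := Nat.le_mul_of_pos_left _ (by omega)
  have hy2 : x ≤ x * (D + ℓ + 3) := Nat.le_mul_of_pos_right _ (by omega)
  refine ⟨p, hp, by omega, hp.odd_of_ne_two (by omega), by omega, ?_, ?_, ?_⟩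
  · rw [Nat.Prime.coprime_iff_not_dvd hp]
    intro hdvd
    have h1 := Nat.le_of_dvd hl hdvd
    omega
  · exact hx1.trans (Nat.pow_le_pow_left (by omega) _)
  · have h1 : (2 * p ^ d) ^ h ≤ m ^ h := by
      calc (2 * p ^ d) ^ h = 2 ^ h * p ^ (d * h) := by rw [mul_pow, ← pow_mul]
        _ ≤ 2 ^ h * (2 * (x * (D + ℓ + 3))) ^ (d * h) :=
          Nat.mul_le_mul_left _ (Nat.pow_le_pow_left hp2 _)
        _ = 2 ^ h * (2 * (D + ℓ + 3)) ^ (d * h) * x ^ (d * h) := by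
          rw [show 2 * (x * (D + ℓ + 3)) = 2 * (D + ℓ + 3) * x from by ring, mul_pow _ x,
            mul_assoc]
        _ ≤ 2 ^ h * (2 * (D + ℓ + 3)) ^ (d * h) * (2 ^ (d * h) * (12 * q)) :=
          Nat.mul_le_mul_left _ hx3
        _ = 2 ^ h * (2 * (D + ℓ + 3)) ^ (d * h) * 2 ^ (d * h) * 12 * q := by ring
        _ ≤ m ^ h := hm
    exact (Nat.pow_le_pow_iff_left (by omega)).1 h1

/-- **Module Main (3).**  The theorem.

PROOF.  `d = 2 h + 2`, `e = d * h + 1`, `D = d + e`, `a = h + 1 + e`: `a + h + 1 = D`,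
`2 a = D + e`.  `K0` from `exists_expands`, `C1` from `exists_p`,
`C = C1 + K0 * (8 * (D + 1)) * (12 * D) ^ h * (8 * (D + 1)) ^ h` (a product of factors `≥ 1` in the
second term; so in particular `C ≥ (8 * (D + 1)) ^ h`).
Given `q, t, r, m, j, n, β`: `p` from `exists_p`, `ev` from `exists_mds`.
`j ^ h ≥ C q (q t r) ^ h ≥ (8 (D + 1) q) ^ h`, so `j ≥ 8 (D + 1) q`.
`g = j / (2 * q)`: `4 q g ≥ j` and `2 q g ≤ j`, `g ≥ 4 (D + 1)`.
`N = g / (D + 1)`: `D * N < g`, `2 (D + 1) N ≥ g`, so `j ≤ 8 q (D + 1) N`, `N ≥ 1`.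
`3 j ≤ 12 q g ≤ g * p ^ (d h) = g * p ^ (e - 1)`.
`exists_expands` with `C0 = 8 * q * (D + 1)`, `M = j`, `s0 = 2 * (6 * D * (r * t)) = 12 D r t`:
`K0 * C0 * s0 ^ h ≤ N ^ h` follows from (multiply by `(8 q (D + 1)) ^ h`)
`K0 * (8 q (D + 1)) * (12 D r t) ^ h * (8 q (D + 1)) ^ h ≤ C q (q t r) ^ h ≤ j ^ h ≤
(8 q (D + 1)) ^ h * N ^ h`.
`n ≥ j ^ 2 ≥ 16`; `m ≥ 2 p ^ d ≥ 2 * p ≥ 6`.  `main_given`.
`√n < K.card` for `K.card = Nat.sqrt n + 1`: as in the old `main_all`.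
For `G₀`: `K.card + j ≤ g + Nat.sqrt n`, `(Nat.sqrt n : ℝ) ≤ √n`, `(g : ℝ) ≤ j / (2 q) ≤ j / q`. -/
theorem main_all (h ℓ : ℕ) (hh : 1 ≤ h) (hl : 1 ≤ ℓ) : ∃ C : ℕ, ∀ q t r m j n : ℕ,
    1 ≤ q → 1 ≤ t → 1 ≤ r → C * q ≤ m ^ h → C * q * (q * t * r) ^ h ≤ j ^ h → j ^ 2 ≤ n →
    ∀ β : Fin j × Fin m ↪ Fin n,
    ∃ G₁ G₀ : SimpleGraph (Fin n),
      (∃ K : Finset (Fin n), G₁.IsClique (K : Set (Fin n)) ∧ √(n : ℝ) < K.card) ∧
      (∀ K : Finset (Fin n), G₀.IsClique (K : Set (Fin n)) →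
        (K.card : ℝ) ≤ √(n : ℝ) - (1 - 1 / (q : ℝ)) * j) ∧
      ∀ (s : ℕ) (D : Circuit n s t ℓ), (∀ i, (images β (D.gateFun i)).ncard < m ^ r) →
        ∀ y : ℝ, {σ | D.gateFun D.out (act β σ G₁) = y}.ncard =
          {σ | D.gateFun D.out (act β σ G₀) = y}.ncard := by
  obtain ⟨d, hd⟩ : ∃ d : ℕ, d = 2 * h + 2 := ⟨_, rfl⟩
  obtain ⟨e, he⟩ : ∃ e : ℕ, e = d * h + 1 := ⟨_, rfl⟩
  obtain ⟨D, hD⟩ : ∃ D : ℕ, D = d + e := ⟨_, rfl⟩
  obtain ⟨K0, hK0, hex⟩ := exists_expands (D := D) (a := h + 1 + e) (h := h) (e := e) (by omega)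
    (by omega) (by omega) hh
  obtain ⟨C1, hC1⟩ := exists_p d D h ℓ (by omega) hh hl
  obtain ⟨C2, hC2⟩ : ∃ C2 : ℕ, C2 = K0 * (8 * (D + 1)) * (12 * D) ^ h * (8 * (D + 1)) ^ h :=
    ⟨_, rfl⟩
  refine ⟨C1 + C2, ?_⟩
  intro q t r m j n hq ht hr hm hj hjn β
  obtain ⟨p, hpp, hp3, hpo, hDp, hcop, hpq, hpm⟩ := hC1 q m hq
    ((Nat.mul_le_mul_right _ (Nat.le_add_right _ _)).trans hm)
  have hj2 : C2 * q * (q * t * r) ^ h ≤ j ^ h :=
    (Nat.mul_le_mul_right _ (Nat.mul_le_mul_right _ (Nat.le_add_left _ _))).trans hj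
  have hh0 : h ≠ 0 := by omega
  have hq0 : 0 < q := hq
  have ht0 : 0 < t := ht
  have hr0 : 0 < r := hr
  have hD1 : 0 < D := by omega
  have hjA : 8 * (D + 1) * q ≤ j := by
    have h1 : (8 * (D + 1) * q) ^ h ≤ j ^ h := by
      refine le_trans ?_ hj2
      have k1 : 1 ≤ K0 * (8 * (D + 1)) * (12 * D) ^ h := by
        have : 0 < K0 * (8 * (D + 1)) * (12 * D) ^ h := by positivity
        exact this
      calc (8 * (D + 1) * q) ^ h = 1 * (8 * (D + 1)) ^ h * 1 * q ^ h := by rw [mul_pow]; ring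
        _ ≤ (K0 * (8 * (D + 1)) * (12 * D) ^ h) * (8 * (D + 1)) ^ h * q * (q * t * r) ^ h := by
          refine Nat.mul_le_mul (Nat.mul_le_mul (Nat.mul_le_mul_right _ k1) hq)
            (Nat.pow_le_pow_left ?_ _)
          rw [mul_assoc]
          exact Nat.le_mul_of_pos_right _ (Nat.mul_pos ht0 hr0)
        _ = C2 * q * (q * t * r) ^ h := by rw [hC2]
    exact (Nat.pow_le_pow_iff_left hh0).1 h1
  obtain ⟨g, hg⟩ : ∃ g : ℕ, g = j / (2 * q) := ⟨_, rfl⟩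
  have hg1 : 2 * q * g ≤ j := by
    rw [hg]
    exact Nat.mul_div_le j (2 * q)
  have hg2 : j < 2 * q * g + 2 * q := by
    have k1 := Nat.div_add_mod j (2 * q)
    have k2 := Nat.mod_lt j (show 0 < 2 * q by omega)
    rw [← hg] at k1
    omega
  have hg3 : 4 * (D + 1) ≤ g := by
    rw [hg, Nat.le_div_iff_mul_le (by omega)]
    calc 4 * (D + 1) * (2 * q) = 8 * (D + 1) * q := by ring
      _ ≤ j := hjA
  have hg4 : j ≤ 4 * q * g := by
    have k1 : 2 * q * 1 ≤ 2 * q * g := Nat.mul_le_mul_left _ (by omega)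
    have k2 : 4 * q * g = 2 * q * g + 2 * q * g := by ring
    omega
  obtain ⟨N, hN⟩ : ∃ N : ℕ, N = g / (D + 1) := ⟨_, rfl⟩
  have hN1 : (D + 1) * N ≤ g := by
    rw [hN]
    exact Nat.mul_div_le g (D + 1)
  have hN2 : g < (D + 1) * N + (D + 1) := by
    have k1 := Nat.div_add_mod g (D + 1)
    have k2 := Nat.mod_lt g (Nat.succ_pos D)
    rw [← hN] at k1
    exact k1 ▸ Nat.add_lt_add_left k2 _
  have hN3 : 1 ≤ N := by
    rw [hN, Nat.le_div_iff_mul_le (by omega)]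
    omega
  have hN4 : g ≤ 2 * (D + 1) * N := by
    have k1 : (D + 1) * 1 ≤ (D + 1) * N := Nat.mul_le_mul_left _ hN3
    have k2 : 2 * (D + 1) * N = (D + 1) * N + (D + 1) * N := by ring
    omega
  have hN5 : D * N < g := by
    have k1 : (D + 1) * N = D * N + N := by ring
    omega
  have hN6 : j ≤ 8 * q * (D + 1) * N := by
    calc j ≤ 4 * q * g := hg4
      _ ≤ 4 * q * (2 * (D + 1) * N) := Nat.mul_le_mul_left _ hN4
      _ = 8 * q * (D + 1) * N := by ring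
  have hpg : 3 * j ≤ g * p ^ (e - 1) := by
    have k1 : e - 1 = d * h := by omega
    rw [k1]
    calc 3 * j ≤ 3 * (4 * q * g) := Nat.mul_le_mul_left _ hg4
      _ = g * (12 * q) := by ring
      _ ≤ g * p ^ (d * h) := Nat.mul_le_mul_left _ hpq
  obtain ⟨v, hv⟩ := hex (8 * q * (D + 1)) N j (2 * (6 * D * (r * t)))
    (Nat.mul_pos (by omega) (by omega)) hN3 hN6 (by
      have k0 : 0 < (8 * q * (D + 1)) ^ h := by positivity
      refine Nat.le_of_mul_le_mul_right ?_ k0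
      calc K0 * (8 * q * (D + 1)) * (2 * (6 * D * (r * t))) ^ h * (8 * q * (D + 1)) ^ h
          = C2 * q * (q * t * r) ^ h := by
            rw [hC2, show 2 * (6 * D * (r * t)) = 12 * D * (t * r) from by ring,
              show 8 * q * (D + 1) = 8 * (D + 1) * q from by ring,
              show q * t * r = q * (t * r) from by ring, mul_pow (12 * D), mul_pow (8 * (D + 1)) q,
              mul_pow q (t * r)]
            ring
        _ ≤ j ^ h := hj2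
        _ ≤ (8 * q * (D + 1) * N) ^ h := Nat.pow_le_pow_left hN6 _
        _ = N ^ h * (8 * q * (D + 1)) ^ h := by rw [mul_pow, mul_comm])
  have hj8 : 8 ≤ j := by
    refine le_trans ?_ hjA
    have k1 : 1 * 1 ≤ (D + 1) * q := Nat.mul_le_mul (by omega) hq
    rw [mul_assoc]
    omega
  have hn16 : 16 ≤ n := by
    have k1 : j ^ 2 = j * j := sq j
    nlinarith
  have hm5 : 5 ≤ m := by
    have k1 : p ≤ p ^ d := Nat.le_self_pow (by omega) _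
    omega
  have hgj : g ≤ j := by
    refine le_trans ?_ hg1
    exact Nat.le_mul_of_pos_left _ (by omega)
  have : Fact p.Prime := ⟨hpp⟩
  have : NeZero p := ⟨by omega⟩
  obtain ⟨ev, hev⟩ := exists_mds p d D hDp
  obtain ⟨G₁, G₀, ⟨K, hK, hKc⟩, hG0, hcirc⟩ := main_given (ℓ := ℓ) ht hr (by omega : 1 < p) hpo
    hcop hD (by omega : 1 ≤ e) (by omega : 2 ≤ g) hgj hpg hN5 hpm hm5 hjn hn16 ev hev v hv β
  refine ⟨G₁, G₀, ⟨K, hK, ?_⟩, ?_, hcirc⟩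
  · rw [hKc]
    push_cast
    rw [Real.sqrt_lt' (by positivity)]
    exact_mod_cast Nat.lt_succ_sqrt' n
  · intro K hK
    have h1 := hG0 K hK
    have h2 : (K.card : ℝ) + j ≤ g + Nat.sqrt n := by exact_mod_cast h1
    have h3 : (Nat.sqrt n : ℝ) ≤ √(n : ℝ) := Real.nat_sqrt_le_real_sqrt
    have h4 : 2 * (q : ℝ) * g ≤ j := by exact_mod_cast hg1
    have hqR : (0 : ℝ) < q := by exact_mod_cast hq0
    have hgR : (0 : ℝ) ≤ g := Nat.cast_nonneg g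
    have h5 : (g : ℝ) ≤ j / q := by
      rw [le_div_iff₀ hqR]
      nlinarith
    have h6 : (1 - 1 / (q : ℝ)) * j = j - j / q := by ring
    rw [h6]
    linarith

end Pool.Agent.SymGap
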