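import Mathlib

/-!
# Project SG, module Tr: translations of the local solutions as even permutations
-/

namespace Pool.Agent.SymGap

/-- **Module Tr.**  The translations of `Fin d → ZMod p` (`p` odd), embedded in the permutations of
`Fin m` by `pos`, are even.  (Adapt `exists_tr` in `MP_0a1b52_lc_SYM/Tr.lean`; the group is
`Fin d → ZMod p` instead of `ZMod p × ZMod p`, and the last claim is that the order of the range
divides `p ^ d = Nat.card (Fin d → ZMod p)`: `Subgroup.card_range_dvd` or the like.) -/
theorem exists_tr {p d m : ℕ} [NeZero p] (hp : Odd p) (pos : (Fin d → ZMod p) ↪ Fin m) :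
    ∃ tr : Multiplicative (Fin d → ZMod p) →* alternatingGroup (Fin m),
      (∀ u x, (tr (Multiplicative.ofAdd u) : Equiv.Perm (Fin m)) (pos x) = pos (x + u)) ∧
      (∀ u, ∀ y ∉ Set.range pos, (tr u : Equiv.Perm (Fin m)) y = y) ∧
      Nat.card tr.range ∣ p ^ d := by
  classical
  let h0 : Multiplicative (Fin d → ZMod p) →* Equiv.Perm (Fin d → ZMod p) :=
    { toFun := fun u => Equiv.addRight (Multiplicative.toAdd u)
      map_one' := by
        apply Equiv.ext
        intro x
        show x + 0 = x
        rw [add_zero]
      map_mul' := by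
        intro a b
        apply Equiv.ext
        intro x
        show x + (Multiplicative.toAdd a + Multiplicative.toAdd b) =
          (x + Multiplicative.toAdd b) + Multiplicative.toAdd a
        abel }
  let h : Multiplicative (Fin d → ZMod p) →* Equiv.Perm (Fin m) :=
    (Equiv.Perm.viaEmbeddingHom pos).comp h0
  have hpow : ∀ u : Multiplicative (Fin d → ZMod p), u ^ p = 1 := by
    intro u
    apply Multiplicative.toAdd.injective
    show p • Multiplicative.toAdd u = 0
    ext i
    simp
  have hmem : ∀ u, h u ∈ alternatingGroup (Fin m) := by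
    intro u
    rw [Equiv.Perm.mem_alternatingGroup]
    have h1 : Equiv.Perm.sign (h u) ^ p = 1 := by
      rw [← map_pow, ← map_pow, hpow, map_one, map_one]
    rcases Int.units_eq_one_or (Equiv.Perm.sign (h u)) with h2 | h2
    · exact h2
    · rw [h2, hp.neg_one_pow] at h1
      exact absurd h1 (by decide)
  refine ⟨h.codRestrict (alternatingGroup (Fin m)) hmem, ?_, ?_, ?_⟩
  · intro u x
    exact Equiv.Perm.viaEmbedding_apply (Equiv.addRight u) pos x
  · intro u y hy
    exact Equiv.Perm.viaEmbedding_apply_of_notMem _ pos y hy
  · have h1 := Subgroup.card_range_dvd (h.codRestrict (alternatingGroup (Fin m)) hmem)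
    have h2 : Nat.card (Multiplicative (Fin d → ZMod p)) = p ^ d := by
      rw [Nat.card_congr (Multiplicative.toAdd : Multiplicative (Fin d → ZMod p) ≃ _),
        Nat.card_fun, Nat.card_zmod, Nat.card_fin]
    rw [h2] at h1
    exact h1

end Pool.Agent.SymGap
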