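import Pool.Agent.Lib.MP_0a1b52_lc_SG.Loc
import Pool.Agent.Lib.MP_0a1b52_lc_SG.Inst
import Pool.Agent.Lib.MP_0a1b52_lc_SG.Tr

/-!
# Project SG, module MkSys: the data of the induction
-/

namespace Pool.Agent.SymGap

variable {p d D M N j m n e ℓ : ℕ}

/-- the constraints in the blocks of `B` -/
private def MkSys_pre (P : Place p d M j m n) (B : Finset (Fin j)) : Finset (Fin M) :=
  Finset.univ.filter fun c => P.e c ∈ B

private theorem MkSys_mem (P : Place p d M j m n) {B : Finset (Fin j)} {c : Fin M} :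
    c ∈ MkSys_pre P B ↔ P.e c ∈ B := by
  simp [MkSys_pre]

private theorem MkSys_card (P : Place p d M j m n) (B : Finset (Fin j)) :
    (MkSys_pre P B).card ≤ B.card :=
  Finset.card_le_card_of_injOn P.e (fun _ hc => (MkSys_mem P).1 hc) P.e.injective.injOn

private theorem MkSys_mono (P : Place p d M j m n) {B B' : Finset (Fin j)} (h : B ⊆ B') :
    MkSys_pre P B ⊆ MkSys_pre P B' := fun _ hc => (MkSys_mem P).2 (h ((MkSys_mem P).1 hc))

/-- **Module MkSys.**  The system for an expanding hypergraph.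
(Adapt `exists_sys` in `MP_0a1b52_lc_SYM/MkSys.lean`.)

PROOF.  `tr` from `exists_tr` for `P.pos`.  `a = act P.β`, `a_mul = act_mul`, `T = tr.range`
(`T_cop`: its order divides `p ^ d`, which is prime to `ℓ`), `z0 = P.inst v ev 0`,
`z x = P.inst v ev (fun c i => b c i - ev (x.1 c) i)`,
`K B = locSol v ev b e s1 (Finset.univ.filter fun c => P.e c ∈ B)` (the card of this filter is
`≤ B.card`), `k' = s1 / D`.
`mono`: `locSol_mono`.
`ext`: `D * (filter of B').card ≤ D * (s1 / D) ≤ s1`, so `locSol_ext` gives `x' ∈ K B'` with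
`x'.1 c = x.1 c` for `e c ∈ B`.  Let `w c = x'.1 c - x.1 c` and `τ i = tr (ofAdd (w c))` for
`i = P.e c`, `τ i = 1` for `i ∉ Set.range P.e` (`Function.extend P.e _ 1`).  `τ ∈ PB T B`, and
`inst_move` (offsets `b c i - ev (x.1 c) i`) gives `z x' = act τ (z x)` (`map_sub`).
`S.z 0 = P.inst v ev b`: `ev 0 = 0`.  `0 ∈ S.K ∅`: `mem_locSol_empty`.
Edges: `B0` from `edge_blocks`.  Let `x ∈ K B0`.  By `inst_gauge` with `-x.2`:
`z x = P.inst v ev (fun c i => b c i - ev (x.1 c) i - x.2 i (v c i))`, and by `locSol_eq` these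
offsets vanish for `e c ∈ B0`, as those of `z0`. -/
theorem exists_sys [NeZero p] (hp : Odd p) (hpl : p.Coprime ℓ) (P : Place p d M j m n)
    (v : Fin M → Fin D → Fin N) (ev : (Fin d → ZMod p) →+ (Fin D → ZMod p)) (hev : MDS ev)
    (hD : D = d + e) (he : 1 ≤ e) (b : Fin M → Fin D → ZMod p) {s1 : ℕ} (hs1 : 1 ≤ s1)
    (hv : Expands v e (2 * s1)) :
    ∃ S : Sys (Fin j) (alternatingGroup (Fin m)) (SimpleGraph (Fin n))
        ((Fin M → Fin d → ZMod p) × (Fin D → Fin N → ZMod p)) ℓ,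
      S.a = act P.β ∧ S.z0 = P.inst v ev (fun _ _ => 0) ∧ S.z 0 = P.inst v ev b ∧
      0 ∈ S.K ∅ ∧ S.k' = s1 / D ∧
      ∀ x y : Fin n, ∃ B0 : Finset (Fin j), B0.card ≤ 2 ∧ ∀ σ, ∀ κ ∈ S.K B0,
        ((S.a σ S.z0).Adj x y ↔ (S.a σ (S.z κ)).Adj x y) := by
  obtain ⟨tr, htr, htr', hdvd⟩ := exists_tr hp P.pos
  refine ⟨{
    a := act P.β
    a_mul := act_mul P.β
    T := tr.range
    T_cop := Nat.Coprime.coprime_dvd_left hdvd (Nat.Coprime.pow_left d hpl)
    z0 := P.inst v ev fun _ _ => 0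
    z := fun x => P.inst v ev fun c i => b c i - ev (x.1 c) i
    K := fun B => locSol v ev b e s1 (MkSys_pre P B)
    k' := s1 / D
    mono := fun B B' x h hx => locSol_mono v ev b (MkSys_mono P h) hx
    ext := ?_ }, rfl, rfl, ?_, ?_, rfl, ?_⟩
  · intro B B' x hBB hB' hx
    have h6 : D * (MkSys_pre P B').card ≤ s1 :=
      (Nat.mul_le_mul_left D ((MkSys_card P B').trans hB')).trans (Nat.mul_div_le s1 D)
    obtain ⟨x', hx', hag⟩ := locSol_ext v ev hev hD he b hv (MkSys_mono P hBB) h6 hx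
    obtain ⟨w, hw⟩ : ∃ w : Fin M → Fin d → ZMod p, w = fun c => x'.1 c - x.1 c := ⟨_, rfl⟩
    obtain ⟨τ, hτdef⟩ : ∃ τ : Fin j → alternatingGroup (Fin m), τ = Function.extend P.e
        (fun c => tr (Multiplicative.ofAdd (w c))) (fun _ => 1) := ⟨_, rfl⟩
    have hτ : ∀ c, τ (P.e c) = tr (Multiplicative.ofAdd (w c)) := fun c => by
      rw [hτdef]
      exact P.e.injective.extend_apply _ _ c
    have hτ' : ∀ i ∉ Set.range P.e, τ i = 1 := fun i hi => by
      rw [hτdef]
      exact Function.extend_apply' _ _ _ hi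
    have h0 : ∀ c, P.e c ∈ B → w c = 0 := fun c hc => by
      rw [hw]
      exact sub_eq_zero.2 (hag c ((MkSys_mem P).2 hc))
    refine ⟨x', hx', τ, mem_PB.2 ⟨fun i => ?_, fun i hi => ?_⟩, ?_⟩
    · by_cases h : i ∈ Set.range P.e
      · obtain ⟨c, rfl⟩ := h
        rw [hτ]
        exact ⟨_, rfl⟩
      · rw [hτ' i h]
        exact Subgroup.one_mem _
    · by_cases h : i ∈ Set.range P.e
      · obtain ⟨c, rfl⟩ := h
        rw [hτ, h0 c hi]
        exact map_one tr
      · exact hτ' i h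
    · rw [inst_move P v ev tr htr htr' w τ hτ hτ']
      congr 1
      funext c i
      rw [hw]
      simp only [map_sub, Pi.sub_apply]
      ring
  · show P.inst v ev (fun c i => b c i - ev ((0 : (Fin M → Fin d → ZMod p) ×
      (Fin D → Fin N → ZMod p)).1 c) i) = P.inst v ev b
    congr 1
    funext c i
    simp
  · have h1 : MkSys_pre P ∅ = ∅ := by
      ext c
      simp [MkSys_pre]
    show (0 : (Fin M → Fin d → ZMod p) × (Fin D → Fin N → ZMod p)) ∈
      locSol v ev b e s1 (MkSys_pre P ∅)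
    rw [h1]
    exact mem_locSol_empty v ev b he hv 0
  · intro x y
    obtain ⟨B0, hB0, h⟩ := edge_blocks P x y
    refine ⟨B0, hB0, fun σ κ hκ => ?_⟩
    show (act P.β σ (P.inst v ev fun _ _ => 0)).Adj x y ↔
      (act P.β σ (P.inst v ev fun c i => b c i - ev (κ.1 c) i)).Adj x y
    rw [← inst_gauge P v ev (fun c i => b c i - ev (κ.1 c) i) (-κ.2)]
    refine h v ev _ _ (fun c hc => ?_) σ
    funext i
    have h2 := locSol_eq v ev b he hs1 hκ ((MkSys_mem P).2 hc) i
    show (0 : ZMod p) = b c i - ev (κ.1 c) i + (-κ.2) i (v c i)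
    rw [h2]
    simp

end Pool.Agent.SymGap
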